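import Pool.Agent.H566W.Ana

/-!
Automatic uniformity for groups which are unions of Polish groups.
-/

set_option autoImplicit false

open Set Filter Topology MeasureTheory Function
open scoped Pointwise

namespace Pool.Agent.Q175.HU

/-- analytic sets have the property of Baire -/
theorem analytic_baire {X : Type} [TopologicalSpace X] [SecondCountableTopology X] [T2Space X]
    {A : Set X} (hA : AnalyticSet A) :
    ∃ u : Set X, IsOpen u ∧ ∀ᶠ x in residual X, (x ∈ A ↔ x ∈ u) := by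
  rw [AnalyticSet] at hA
  rcases hA with rfl | ⟨f, hf, hfr⟩
  · exact ⟨∅, isOpen_empty, Eventually.of_forall fun _ => Iff.rfl⟩
  have h1 : IsMeagre (A \ H566W.Dn A) := H566W.sdiff_Dn A
  have h2 : IsMeagre (H566W.Dn A \ A) := by
    rw [← hfr]
    exact H566W.analytic_bp hf
  have h3 : BaireMeasurableSet (H566W.Dn A) :=
    ((H566W.Dn_closed A).isOpen_compl.baireMeasurableSet).of_compl
  have h4 : A =ᶠ[residual X] H566W.Dn A := by
    rw [Filter.eventuallyEq_set]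
    have h1' : (A \ H566W.Dn A)ᶜ ∈ residual X := h1
    have h2' : (H566W.Dn A \ A)ᶜ ∈ residual X := h2
    filter_upwards [h1', h2'] with x hx1 hx2
    constructor
    · intro hx
      by_contra hc
      exact hx1 ⟨hx, hc⟩
    · intro hx
      by_contra hc
      exact hx2 ⟨hx, hc⟩
  obtain ⟨u, hu, hAu⟩ := (h3.congr h4.symm).residualEq_isOpen
  exact ⟨u, hu, Filter.eventuallyEq_set.1 hAu⟩

/-- the theorem of Pettis -/
theorem pettis {G : Type} [Group G] [TopologicalSpace G] [IsTopologicalGroup G] [BaireSpace G]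
    {A u : Set G} (hu : IsOpen u) (hA : ∀ᶠ x in residual G, (x ∈ A ↔ x ∈ u))
    (hne : u.Nonempty) : ∀ᶠ g in 𝓝 (1 : G), ∃ x ∈ A, ∃ y ∈ A, g = x * y⁻¹ := by
  obtain ⟨x0, hx0⟩ := hne
  have hc : Continuous fun g : G => g⁻¹ * x0 := by fun_prop
  have h1 : ∀ᶠ g in 𝓝 (1 : G), g⁻¹ * x0 ∈ u := by
    refine hc.continuousAt.eventually_mem ?_
    simpa using hu.mem_nhds hx0
  filter_upwards [h1] with g hg
  have h2 : ∀ᶠ x in residual G, (g⁻¹ * x ∈ A ↔ g⁻¹ * x ∈ u) :=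
    (tendsto_residual_of_isOpenMap (continuous_const_mul g⁻¹) (isOpenMap_mul_left g⁻¹)).eventually hA
  have h3 : Dense {x : G | (x ∈ A ↔ x ∈ u) ∧ (g⁻¹ * x ∈ A ↔ g⁻¹ * x ∈ u)} :=
    dense_of_mem_residual (hA.and h2)
  have h4 : IsOpen (u ∩ {x : G | g⁻¹ * x ∈ u}) :=
    hu.inter (hu.preimage (continuous_const_mul g⁻¹))
  obtain ⟨x, ⟨hx1, hx2⟩, hx3, hx4⟩ := h3.inter_open_nonempty _ h4 ⟨x0, hx0, hg⟩
  refine ⟨x, hx3.2 hx1, g⁻¹ * x, hx4.2 hx2, ?_⟩
  group

section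

variable {G : Type} [Group G] {ι : Type} [SemilatticeSup ι] (L : ι → Type) [∀ i, Group (L i)]
  [∀ i, TopologicalSpace (L i)] [∀ i, IsTopologicalGroup (L i)] [∀ i, PolishSpace (L i)]
  (t : ∀ i, L i →* G) (c : ∀ i j, i ≤ j → L i →* L j)

/-- images of analytic sets -/
def Cl (S : Set G) : Prop := ∃ i, ∃ A : Set (L i), AnalyticSet A ∧ S = t i '' A

variable {L t}

theorem Cl.up (ht : ∀ i j h x, t j (c i j h x) = t i x) (hc : ∀ i j h, Continuous (c i j h))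
    {i j : ι} (h : i ≤ j) {A : Set (L i)} (hA : AnalyticSet A) :
    AnalyticSet (c i j h '' A) ∧ t i '' A = t j '' (c i j h '' A) := by
  refine ⟨hA.image_of_continuous (hc i j h), ?_⟩
  rw [image_image]
  refine image_congr fun x _ => ?_
  rw [ht]

theorem Cl.mul (ht : ∀ i j h x, t j (c i j h x) = t i x) (hc : ∀ i j h, Continuous (c i j h))
    {S T : Set G} (hS : Cl L t S) (hT : Cl L t T) : Cl L t (S * T) := by
  obtain ⟨i, A, hA, rfl⟩ := hS
  obtain ⟨j, B, hB, rfl⟩ := hT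
  obtain ⟨hA', hA2⟩ := Cl.up c ht hc (le_sup_left : i ≤ i ⊔ j) hA
  obtain ⟨hB', hB2⟩ := Cl.up c ht hc (le_sup_right : j ≤ i ⊔ j) hB
  refine ⟨i ⊔ j, (c i (i ⊔ j) le_sup_left '' A) * (c j (i ⊔ j) le_sup_right '' B), ?_, ?_⟩
  · obtain ⟨β, _, _, f, hf, hf2⟩ := analyticSet_iff_exists_polishSpace_range.1 hA'
    obtain ⟨γ, _, _, g, hg, hg2⟩ := analyticSet_iff_exists_polishSpace_range.1 hB'
    have h1 : (c i (i ⊔ j) le_sup_left '' A) * (c j (i ⊔ j) le_sup_right '' B) =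
        range fun p : β × γ => f p.1 * g p.2 := by
      rw [← hf2, ← hg2]
      ext x
      constructor
      · rintro ⟨_, ⟨a, rfl⟩, _, ⟨b, rfl⟩, rfl⟩
        exact ⟨(a, b), rfl⟩
      · rintro ⟨⟨a, b⟩, rfl⟩
        exact ⟨_, ⟨a, rfl⟩, _, ⟨b, rfl⟩, rfl⟩
    rw [h1]
    exact analyticSet_range_of_polishSpace (by fun_prop)
  · rw [hA2, hB2, ← Set.image_mul (t (i ⊔ j))]

theorem Cl.inv {S : Set G} (hS : Cl L t S) : Cl L t S⁻¹ := by
  obtain ⟨i, A, hA, rfl⟩ := hS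
  refine ⟨i, (fun x => x⁻¹) '' A, hA.image_of_continuous continuous_inv, ?_⟩
  rw [← Set.image_inv_eq_inv, image_image, image_image]
  refine image_congr fun x _ => ?_
  rw [map_inv]

theorem Cl.analytic (ht : ∀ i j h x, t j (c i j h x) = t i x)
    (hc : ∀ i j h, Continuous (c i j h)) (hinj : ∀ i, Injective (t i)) {S : Set G}
    (hS : Cl L t S) (i : ι) : AnalyticSet (t i ⁻¹' S) := by
  obtain ⟨j, A, hA, rfl⟩ := hS
  obtain ⟨hA', hA2⟩ := Cl.up c ht hc (le_sup_right : j ≤ i ⊔ j) hA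
  have h1 : t i ⁻¹' (t j '' A) =
      c i (i ⊔ j) le_sup_left ⁻¹' (c j (i ⊔ j) le_sup_right '' A) := by
    rw [hA2]
    ext x
    constructor
    · rintro ⟨y, hy, h⟩
      rw [← ht i (i ⊔ j) le_sup_left x] at h
      rw [mem_preimage, ← hinj _ h]
      exact hy
    · intro hx
      exact ⟨_, hx, ht _ _ _ _⟩
  rw [h1]
  exact hA'.preimage (hc _ _ _)

/-- products of elements of the sets `V m` and of inverses -/
def PS (V : ℕ → Set G) : List (ℕ × Bool) → Set G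
  | [] => 1
  | (m, b) :: l => (if b then V m else (V m)⁻¹) * PS V l

theorem PS_cl [Nonempty ι] (ht : ∀ i j h x, t j (c i j h x) = t i x)
    (hc : ∀ i j h, Continuous (c i j h)) (V : ℕ → Set G) (hV : ∀ m, Cl L t (V m))
    (l : List (ℕ × Bool)) : Cl L t (PS V l) := by
  induction l with
  | nil =>
    have i : ι := Classical.arbitrary ι
    refine ⟨i, {1}, ?_, ?_⟩
    · have h1 : ({1} : Set (L i)) = range fun _ : Unit => (1 : L i) := by
        rw [range_const]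
      rw [h1]
      exact analyticSet_range_of_polishSpace continuous_const
    · rw [image_singleton, map_one]
      rfl
  | cons p l ih =>
    obtain ⟨m, b⟩ := p
    refine Cl.mul c ht hc ?_ ih
    rcases b with _ | _
    · exact (hV m).inv
    · exact hV m

theorem PS_mem (V : ℕ → Set G) (l : List (ℕ × Bool)) (x : G) (hx : x ∈ PS V l) :
    ∃ l' : List G, l'.length = l.length ∧ (∀ y ∈ l', ∃ m, y ∈ V m ∨ y⁻¹ ∈ V m) ∧ l'.prod = x := by
  induction l generalizing x with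
  | nil =>
    have h1 : x = 1 := hx
    exact ⟨[], rfl, by simp, by rw [h1]; rfl⟩
  | cons p l ih =>
    obtain ⟨m, b⟩ := p
    obtain ⟨y, hy, z, hz, rfl⟩ := hx
    obtain ⟨l', h1, h2, h3⟩ := ih z hz
    refine ⟨y :: l', by simp [h1], ?_, by simp [h3]⟩
    intro w hw
    rcases List.mem_cons.1 hw with rfl | hw
    · rcases b with _ | _
      · exact ⟨m, Or.inr hy⟩
      · exact ⟨m, Or.inl hy⟩
    · exact h2 w hw

theorem mem_PS (V : ℕ → Set G) (l' : List G) (h : ∀ y ∈ l', ∃ m, y ∈ V m ∨ y⁻¹ ∈ V m) :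
    ∃ l, l'.prod ∈ PS V l := by
  induction l' with
  | nil => exact ⟨[], rfl⟩
  | cons y l' ih =>
    obtain ⟨l, hl⟩ := ih fun z hz => h z (List.mem_cons_of_mem _ hz)
    obtain ⟨m, hm | hm⟩ := h y List.mem_cons_self
    · exact ⟨(m, true) :: l, y, hm, _, hl, by simp⟩
    · exact ⟨(m, false) :: l, y, hm, _, hl, by simp⟩

/-- automatic uniformity -/
theorem auto (ht : ∀ i j h x, t j (c i j h x) = t i x)
    (hc : ∀ i j h, Continuous (c i j h)) (hinj : ∀ i, Injective (t i)) (V : ℕ → Set G)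
    (hV : ∀ m, Cl L t (V m))
    (hgen : ∀ x : G, ∃ l : List G, (∀ y ∈ l, ∃ m, y ∈ V m ∨ y⁻¹ ∈ V m) ∧ l.prod = x) (i : ι) :
    ∃ N : ℕ, ∀ᶠ x in 𝓝 (1 : L i), ∃ l : List G, l.length ≤ N ∧
      (∀ y ∈ l, ∃ m, y ∈ V m ∨ y⁻¹ ∈ V m) ∧ l.prod = t i x := by
  have : Nonempty ι := ⟨i⟩
  have hA : ∀ l : List (ℕ × Bool), ∃ u : Set (L i), IsOpen u ∧
      ∀ᶠ x in residual (L i), (x ∈ t i ⁻¹' (PS V l) ↔ x ∈ u) := fun l =>
    analytic_baire (Cl.analytic c ht hc hinj (PS_cl c ht hc V hV l) i)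
  choose u hu1 hu2 using hA
  obtain ⟨l, hl⟩ : ∃ l, (u l).Nonempty := by
    by_contra hcon
    push Not at hcon
    have h1 : ∀ᶠ x in residual (L i), ∀ l, (x ∈ t i ⁻¹' (PS V l) ↔ x ∈ u l) :=
      eventually_countable_forall.2 hu2
    have h2 : Dense {x : L i | ∀ l, (x ∈ t i ⁻¹' (PS V l) ↔ x ∈ u l)} := dense_of_mem_residual h1
    obtain ⟨x, hx⟩ := h2.nonempty
    obtain ⟨l', h3, h4⟩ := hgen (t i x)
    obtain ⟨l, hl⟩ := mem_PS V l' h3
    rw [h4] at hl
    have h5 := (hx l).1 hl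
    rw [hcon l] at h5
    exact h5
  refine ⟨l.length + l.length, ?_⟩
  filter_upwards [pettis (hu1 l) (hu2 l) hl] with g hg
  obtain ⟨x, hx, y, hy, rfl⟩ := hg
  obtain ⟨l1, h1, h2, h3⟩ := PS_mem V l _ hx
  obtain ⟨l2, h4, h5, h6⟩ := PS_mem V l _ hy
  refine ⟨l1 ++ (l2.map fun z => z⁻¹).reverse, ?_, ?_, ?_⟩
  · simp [h1, h4]
  · intro z hz
    rcases List.mem_append.1 hz with hz | hz
    · exact h2 z hz
    · rw [List.mem_reverse, List.mem_map] at hz
      obtain ⟨w, hw, rfl⟩ := hz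
      obtain ⟨m, hm⟩ := h5 w hw
      refine ⟨m, ?_⟩
      rw [inv_inv]
      exact hm.symm
  · rw [List.prod_append, h3, map_mul, map_inv, ← h6, List.prod_inv_reverse]

end

end Pool.Agent.Q175.HU
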