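import Mathlib

/-!
The algebraic part of the infinite product argument.
-/

set_option autoImplicit false

open Function

namespace Pool.Agent.Q175.HU

section

variable {G : Type} [Group G]

/-- `x` is a product of at most `m` conjugates of elements of `D` -/
def CP (D : Set G) (m : ℕ) (x : G) : Prop :=
  ∃ l : List G, l.length ≤ m ∧ (∀ y ∈ l, ∃ h, ∃ f ∈ D, y = h * f * h⁻¹) ∧ l.prod = x

/-- a product of conjugates -/
def CC : (ℕ → G) → (ℕ → G) → ℕ → G
  | _, _, 0 => 1
  | h, f, m + 1 => (h 0 * f 0 * (h 0)⁻¹) * CC (fun j => h (j + 1)) (fun j => f (j + 1)) m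

/-- a product -/
def DD : (ℕ → G) → ℕ → G
  | _, 0 => 1
  | f, m + 1 => f 0 * DD (fun j => f (j + 1)) m

theorem CC_of {D : Set G} (hD : (1 : G) ∈ D) (l : List G) (m : ℕ) (hl : l.length ≤ m)
    (h : ∀ y ∈ l, ∃ h, ∃ f ∈ D, y = h * f * h⁻¹) :
    ∃ h f : ℕ → G, (∀ j, f j ∈ D) ∧ l.prod = CC h f m := by
  induction m generalizing l with
  | zero =>
    have h1 : l = [] := List.length_eq_zero_iff.1 (Nat.le_zero.1 hl)
    exact ⟨fun _ => 1, fun _ => 1, fun _ => hD, by rw [h1]; rfl⟩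
  | succ m ih =>
    rcases l with _ | ⟨y, l⟩
    · obtain ⟨h', f', h1, h2⟩ := ih [] (Nat.zero_le _) (by simp)
      refine ⟨fun j => Nat.casesOn j 1 h', fun j => Nat.casesOn j 1 f', fun j => ?_, ?_⟩
      · rcases j with _ | j
        · exact hD
        · exact h1 j
      · change ([] : List G).prod = ((1 : G) * 1 * 1⁻¹) * CC h' f' m
        rw [← h2]
        simp
    · obtain ⟨h', f', h1, h2⟩ := ih l (by simpa using hl)
        fun z hz => h z (List.mem_cons_of_mem _ hz)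
      obtain ⟨k, f, hf, rfl⟩ := h _ List.mem_cons_self
      refine ⟨fun j => Nat.casesOn j k h', fun j => Nat.casesOn j f f', fun j => ?_, ?_⟩
      · rcases j with _ | j
        · exact hf
        · exact h1 j
      · change (_ :: l).prod = (k * f * k⁻¹) * CC h' f' m
        rw [← h2, List.prod_cons]

theorem DD_map {H : Type} [Group H] (T : G →* H) (f : ℕ → G) (m : ℕ) :
    T (DD f m) = DD (fun j => T (f j)) m := by
  induction m generalizing f with
  | zero => exact map_one T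
  | succ m ih =>
    change T (f 0 * DD (fun j => f (j + 1)) m) = T (f 0) * DD (fun j => T (f (j + 1))) m
    rw [map_mul, ih]

theorem DD_mem (D : Subgroup G) (f : ℕ → G) (hf : ∀ j, f j ∈ D) (m : ℕ) : DD f m ∈ D := by
  induction m generalizing f with
  | zero => exact D.one_mem
  | succ m ih => exact D.mul_mem (hf 0) (ih _ fun j => hf (j + 1))

theorem cc_abel {A : Type} [CommGroup A] (c : G →* A) (Φ : (ℕ → G) →* G) (m : ℕ) :
    ∀ h f : ℕ → ℕ → G, c (Φ fun i => CC (h i) (f i) m) = c (Φ fun i => DD (f i) m) := by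
  induction m with
  | zero => intro h f; rfl
  | succ m ih =>
    intro h f
    have e1 : (fun i => CC (h i) (f i) (m + 1)) =
        ((fun i => h i 0) * (fun i => f i 0) * (fun i => h i 0)⁻¹) *
          fun i => CC (fun j => h i (j + 1)) (fun j => f i (j + 1)) m := rfl
    have e2 : (fun i => DD (f i) (m + 1)) =
        (fun i => f i 0) * fun i => DD (fun j => f i (j + 1)) m := rfl
    rw [e1, e2, map_mul, map_mul, map_mul, map_mul, map_inv, map_mul, map_mul, map_mul, map_mul,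
      map_inv, ih]
    rw [mul_comm (c (Φ fun i => h i 0)), mul_inv_cancel_right]

/-- the infinite product argument -/
theorem swindle {A : Type} [CommGroup A] (c : G →* A) (T W : G →* G) (Φ : (ℕ → G) →* G) (τ : G)
    (hΦ : ∀ γ, Φ γ = W (γ 0) * T (T (Φ fun k => γ (k + 1))))
    (hτ : ∀ γ, τ * Φ (fun k => T (γ k)) * τ⁻¹ = T (Φ γ)) (D : Subgroup G) (m : ℕ)
    (hD : ∀ γ ∈ D, ∃ h f : ℕ → G, (∀ j, f j ∈ D) ∧ γ = CC h (fun j => T (f j)) m) (γ : G)
    (hγ : γ ∈ D) : c (W γ) = 1 := by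
  choose H F hF hc using fun x : D => hD x.1 x.2
  have step : ∀ (c : G →* A) (a : ℕ → D),
      c (Φ fun i => (a i : G)) = c (T (Φ fun i => DD (F (a i)) m)) := by
    intro c a
    have e1 : (fun i => (a i : G)) = fun i => CC (H (a i)) (fun j => T (F (a i) j)) m := by
      funext i
      exact hc (a i)
    rw [e1, cc_abel c Φ m]
    simp only [← DD_map]
    rw [← hτ, map_mul, map_mul, map_inv, mul_comm (c τ), mul_inv_cancel_right]
  let nx : D → D := fun x => ⟨DD (F x) m, DD_mem D _ (hF x) m⟩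
  let sq : ℕ → D := fun k => nx^[k] ⟨γ, hγ⟩
  have hsq : ∀ k, sq (k + 1) = nx (sq k) := fun k => Function.iterate_succ_apply' nx k _
  have h1 := step c fun i => sq (2 * i)
  have e1 : (fun i => DD (F (sq (2 * i))) m) = fun i => (sq (2 * i + 1) : G) := by
    funext i
    rw [hsq]
  have h2 := step (c.comp T) fun i => sq (2 * i + 1)
  have e2 : (fun i => DD (F (sq (2 * i + 1))) m) = fun i => (sq (2 * (i + 1)) : G) := by
    funext i
    rw [show 2 * (i + 1) = (2 * i + 1) + 1 by ring, hsq (2 * i + 1)]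
  rw [e1] at h1
  rw [e2] at h2
  rw [MonoidHom.comp_apply, MonoidHom.comp_apply] at h2
  rw [h2] at h1
  have h3 := hΦ fun i => (sq (2 * i) : G)
  rw [h3, map_mul] at h1
  exact mul_eq_right.1 h1

theorem CP.mul {D : Set G} {m m' : ℕ} {x y : G} (hx : CP D m x) (hy : CP D m' y) :
    CP D (m + m') (x * y) := by
  obtain ⟨l, h1, h2, rfl⟩ := hx
  obtain ⟨l', h1', h2', rfl⟩ := hy
  refine ⟨l ++ l', by rw [List.length_append]; omega, fun y hy => ?_, List.prod_append⟩
  rcases List.mem_append.1 hy with h | h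
  · exact h2 y h
  · exact h2' y h

theorem CP.conj {D : Set G} {m : ℕ} {x : G} (hx : CP D m x) (k : G) : CP D m (k * x * k⁻¹) := by
  obtain ⟨l, h1, h2, rfl⟩ := hx
  refine ⟨l.map (MulAut.conj k), by simpa using h1, fun y hy => ?_, ?_⟩
  · obtain ⟨z, hz, rfl⟩ := List.mem_map.1 hy
    obtain ⟨h, f, hf, rfl⟩ := h2 z hz
    refine ⟨k * h, f, hf, ?_⟩
    rw [MulAut.conj_apply]
    group
  · rw [← map_list_prod, MulAut.conj_apply]

theorem CP.mono {D D' : Set G} {m m' : ℕ} {x : G} (hx : CP D m x) (hD : D ⊆ D') (hm : m ≤ m') :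
    CP D' m' x := by
  obtain ⟨l, h1, h2, h3⟩ := hx
  exact ⟨l, h1.trans hm, fun y hy => by
    obtain ⟨h, f, hf, hy⟩ := h2 y hy
    exact ⟨h, f, hD hf, hy⟩, h3⟩

theorem CP.trans {D D' : Set G} {m k : ℕ} {x : G} (hx : CP D m x) (h : ∀ f ∈ D, CP D' k f) :
    CP D' (m * k) x := by
  obtain ⟨l, h1, h2, rfl⟩ := hx
  have h3 : CP D' (l.length * k) l.prod := by
    clear h1
    induction l with
    | nil => exact ⟨[], by simp, by simp, rfl⟩
    | cons y l ih =>
      obtain ⟨g, f, hf, hy⟩ := h2 y List.mem_cons_self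
      rw [List.prod_cons, List.length_cons, Nat.add_mul, Nat.one_mul, Nat.add_comm, hy]
      exact ((h f hf).conj g).mul (ih fun z hz => h2 z (List.mem_cons_of_mem _ hz))
  exact h3.mono (fun _ h => h) (Nat.mul_le_mul_right k h1)

theorem CP.inv {D : Set G} (hD : ∀ f ∈ D, f⁻¹ ∈ D) {m : ℕ} {x : G} (hx : CP D m x) :
    CP D m x⁻¹ := by
  obtain ⟨l, h1, h2, rfl⟩ := hx
  refine ⟨(l.map fun y => y⁻¹).reverse, by simpa using h1, fun y hy => ?_, ?_⟩
  · rw [List.mem_reverse, List.mem_map] at hy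
    obtain ⟨z, hz, rfl⟩ := hy
    obtain ⟨h, f, hf, rfl⟩ := h2 z hz
    exact ⟨h, f⁻¹, hD f hf, by group⟩
  · rw [List.prod_inv_reverse]

theorem CP.mem {D : Set G} {N : Subgroup G} [hN : N.Normal] (hD : D ⊆ N) {m : ℕ} {x : G}
    (hx : CP D m x) : x ∈ N := by
  obtain ⟨l, -, h2, rfl⟩ := hx
  refine Subgroup.list_prod_mem _ fun y hy => ?_
  obtain ⟨h, f, hf, rfl⟩ := h2 y hy
  exact hN.conj_mem f (hD hf) h

theorem CP_of_closure {D : Set G} {x : G} (hx : x ∈ Subgroup.normalClosure D) :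
    ∃ m, CP {f | f ∈ D ∨ f⁻¹ ∈ D} m x := by
  refine Subgroup.closure_induction (p := fun x _ => ∃ m, CP {f | f ∈ D ∨ f⁻¹ ∈ D} m x)
    (fun x hx => ?_) ⟨0, [], by simp, by simp, rfl⟩ (fun x y _ _ hx hy => ?_)
    (fun x _ hx => ?_) hx
  · obtain ⟨f, hf, hc⟩ := Group.mem_conjugatesOfSet_iff.1 hx
    obtain ⟨h, hh⟩ := isConj_iff.1 hc
    exact ⟨1, [x], by simp, fun y hy => by
      rw [List.mem_singleton] at hy
      exact ⟨h, f, Or.inl hf, by rw [hy, hh]⟩, by simp⟩
  · obtain ⟨m, hm⟩ := hx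
    obtain ⟨k, hk⟩ := hy
    exact ⟨m + k, hm.mul hk⟩
  · obtain ⟨m, hm⟩ := hx
    refine ⟨m, hm.inv fun f hf => ?_⟩
    rcases hf with hf | hf
    · exact Or.inr (by rwa [inv_inv])
    · exact Or.inl hf

end

end Pool.Agent.Q175.HU
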