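import Pool.Agent.Q175.HU.Rot
import Pool.Agent.Q175.HM.Li

/-!
The data for the infinite product argument.
-/

set_option autoImplicit false

open Set Filter Topology Function

namespace Pool.Agent.Q175.HU

open Pool.Agent.Y453.HB
open Pool.Agent.Y496.HB (fixOff maps)
open Pool.Agent.Q175.HM (dd dd_val dd_mul mem_HamBar)

variable {n : ℕ}

theorem dil_fixOff {v : E n ≃ₜ E n} (hv : ∀ x, 1 ≤ Q x → v x = x) {r : ℝ} (hr : 0 < r) :
    dil r hr * v * (dil r hr)⁻¹ ∈ fixOff {x : E n | Q x ≤ r ^ 2} := by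
  intro x hx
  have hx' : r ^ 2 < Q x := not_le.1 hx
  rw [mul_apply, mul_apply, dil_inv_apply, dil_apply, hv, smul_smul, mul_inv_cancel₀ hr.ne',
    one_smul]
  rw [Q_smul, inv_pow, ← div_eq_inv_mul, one_le_div (by positivity)]
  exact hx'.le

theorem fix_out {v : E n ≃ₜ E n} {K : Set (E n)} (hK : K ⊆ {p : E n | Q p < 1})
    (hv : ∀ x, x ∉ K → v x = x) (x : E n) (hx : 1 ≤ Q x) : v x = x :=
  hv x fun h => absurd (hK h) (not_lt.2 hx)

theorem ham_out (φ : HamBar n) (x : E n) (hx : 1 ≤ Q x) : (φ : E n ≃ₜ E n) x = x := by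
  obtain ⟨K, -, hK1, hK2, -⟩ := mem_HamBar.1 φ.2
  exact fix_out hK1 hK2 x hx

theorem uconv_const {R : E n ≃ₜ E n} (hR : IsHam R) : UConv (fun _ : ℕ => R) R := by
  obtain ⟨L, hL, hL1, hL2, -⟩ := ham_mem hR
  refine uconv_of Pool.Agent.Y309.HB.uc hL hL2 ?_
  rw [Metric.tendstoUniformly_iff]
  intro ε hε
  exact Eventually.of_forall fun _ x => by rw [dist_self]; exact hε

/-- conjugates in the shell group -/
theorem conj_HS {R : E n ≃ₜ E n} (hRh : IsHam R) {a : E n} {r r1 : ℝ} (hr1 : 0 < r1)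
    (hrr : r1 ≤ r) (hr : r1 ≤ 1) (hR : ∀ x, Q x ≤ r ^ 2 → R x = a - x) {s ρ : ℝ}
    (hS : ∀ z, Q (a - z) ≤ r1 ^ 2 → z ∈ Sl n s ρ) (φ : HamBar n) :
    R * (dil r1 hr1 * (φ : E n ≃ₜ E n) * (dil r1 hr1)⁻¹) * R⁻¹ ∈ HS n s ρ := by
  obtain ⟨K, hK, hK1, hK2, u, hu1, hu2, hu3⟩ := mem_HamBar.1 φ.2
  have hfix : ∀ v : E n ≃ₜ E n, (∀ x, x ∉ K → v x = x) →
      R * (dil r1 hr1 * v * (dil r1 hr1)⁻¹) * R⁻¹ ∈ fixOff (Sl n s ρ) := by
    intro v hv z hz
    refine (conj_rot (pow_le_pow_left₀ hr1.le hrr 2) hR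
      (dil_fixOff (fix_out hK1 hv) hr1)).2 z ?_
    by_contra hc
    exact hz (hS z (not_lt.1 hc))
  have hU := Pool.Agent.Y309.HB.uc n
  refine ⟨hfix _ hK2, fun k => R * (dil r1 hr1 * u k * (dil r1 hr1)⁻¹) * R⁻¹,
    fun k => hfix _ (hu1 k), fun k => ?_, ?_⟩
  · exact Pool.Agent.Y907.HB.mul n _ _ (Pool.Agent.Y907.HB.mul n _ _ hRh
      (Pool.Agent.Y419.HB.dil_ham n r1 hr1 hr _ (hu2 k))) ((Pool.Agent.Y510.HB.inv n).2 _ hRh)
  · have h1 := hU.2.2.2.1 r1 hr1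
    have h2 := uconv_const hRh
    have h3 := hU.1 _ _ _ _ (hU.1 _ _ _ _ h1 (uconv_of Pool.Agent.Y309.HB.uc hK hK2 hu3))
      (hU.2.1 _ _ h1)
    exact hU.1 _ _ _ _ (hU.1 _ _ _ _ h2 h3) (hU.2.1 _ _ h2)

/-- the data -/
theorem exists_data (hn : 0 < n) {l : ℝ} (hl : 0 < l) (hl1 : l < 1) :
    ∃ (W : HamBar n →* HamBar n) (Φ : (ℕ → HamBar n) →* HamBar n) (τ R0 : HamBar n) (r : ℝ),
      0 < r ∧ r ≤ 1 ∧ (∀ φ, W φ = R0 * dd n r φ * R0⁻¹) ∧
      (∀ γ, Φ γ = W (γ 0) * dd n l (dd n l (Φ fun k => γ (k + 1)))) ∧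
      (∀ γ, τ * Φ (fun k => dd n l (γ k)) * τ⁻¹ = dd n l (Φ γ)) := by
  -- parameters
  obtain ⟨d, hd⟩ : ∃ d : ℝ, d = 1 / 2 := ⟨_, rfl⟩
  obtain ⟨r, hr⟩ : ∃ r : ℝ, r = l * (1 - l) / 8 := ⟨_, rfl⟩
  have hll : 0 < l * (1 - l) := mul_pos hl (by linarith)
  have hr0 : 0 < r := by rw [hr]; linarith
  have hll4 : l * (1 - l) ≤ 1 / 4 := by nlinarith [sq_nonneg (l - 1 / 2)]
  have hr32 : r ≤ 1 / 32 := by rw [hr]; linarith
  obtain ⟨r1, hr1⟩ : ∃ r1 : ℝ, r1 = r / 2 := ⟨_, rfl⟩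
  have hr10 : 0 < r1 := by rw [hr1]; linarith
  obtain ⟨a, ha⟩ := exists_pt (n := n) hn d
  have hd0 : 0 < d := by rw [hd]; norm_num
  have hsa : √(Q a) = d := by rw [ha, Real.sqrt_sq hd0.le]
  have hsq : ∀ t : ℝ, 0 ≤ t → √(Q (t • a)) = t * d := by
    intro t ht
    rw [Q_smul, ha, ← mul_pow, Real.sqrt_sq (by positivity)]
  obtain ⟨ρ, hρ⟩ : ∃ ρ : ℝ, ρ = d + r := ⟨_, rfl⟩
  have hρ0 : 0 < ρ := by rw [hρ]; positivity
  have hρ1 : ρ < 1 := by rw [hρ]; linarith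
  have hs : 0 < l * l := mul_pos hl hl
  have hs1 : l * l < 1 := by nlinarith
  have hkey : l * l * ρ < l * d - r := by
    rw [hρ, hd, hr]
    nlinarith [mul_pos hll hl, mul_pos hll (mul_pos hl hl)]
  have hkey2 : l * d - r ≤ d - r := by
    rw [hd]
    nlinarith
  -- the rotation
  obtain ⟨R, hRh, -, hR'⟩ := rotm ((1 / 2 : ℝ) • a) (c := d / 2 + r) (ρ := d / 2 + 2 * r)
    (by positivity) (by linarith) (by rw [hsq _ (by norm_num)]; linarith)
  have hR : ∀ x, Q x ≤ r ^ 2 → R x = a - x := by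
    intro x hx
    rw [hR', ← add_smul]
    · norm_num
    · apply Q_le_of
      have h1 := sqrtQ_add x (-((1 / 2 : ℝ) • a))
      rw [← sub_eq_add_neg, ← neg_smul, Q_smul, ha,
        show (-(1 / 2 : ℝ)) ^ 2 * d ^ 2 = (d / 2) ^ 2 by ring, Real.sqrt_sq (by positivity)] at h1
      have h2 := sqrtQ_le hr0.le hx
      linarith
  have hSa : ∀ z, Q (a - z) ≤ r1 ^ 2 → z ∈ Sl n (l * l) ρ := by
    intro z hz
    rw [Q_sub_comm] at hz
    refine near_shell hr10.le (by positivity) hz ?_ ?_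
    · rw [hsa]; linarith
    · rw [hsa]; linarith
  -- the intertwining rotation
  obtain ⟨τ0, hτ0h, hτ0f, hτ0⟩ := rotm (((1 + l) / 2) • a) (c := (1 - l) / 2 * d + r1)
    (ρ := (1 - l) / 2 * d + r) (by
      have : 0 < (1 - l) / 2 * d := by
        rw [hd]
        linarith
      linarith) (by linarith) (by
      rw [hsq _ (by linarith)]
      have : (1 + l) / 2 * d + ((1 - l) / 2 * d + r) = d + r := by ring
      linarith)
  obtain ⟨σ, hσh, hσf, hσ⟩ := rotm (l • a) (c := l * r1) (ρ := r) (by positivity) (by nlinarith)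
    (by rw [hsq _ hl.le]; nlinarith)
  have hτ0S : τ0 ∈ fixOff (Sl n (l * l) ρ) := by
    intro z hz
    apply hτ0f
    by_contra hc
    push Not at hc
    refine hz (near_shell (by rw [hd]; linarith) (by positivity) hc ?_ ?_)
    · rw [hsq _ (by linarith)]
      have : (1 + l) / 2 * d - ((1 - l) / 2 * d + r) = l * d - r := by ring
      linarith
    · rw [hsq _ (by linarith)]
      have : (1 + l) / 2 * d + ((1 - l) / 2 * d + r) = d + r := by ring
      linarith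
  have hσS : σ ∈ fixOff (Sl n (l * l) ρ) := by
    intro z hz
    apply hσf
    by_contra hc
    push Not at hc
    refine hz (near_shell hr0.le (by positivity) hc ?_ ?_)
    · rw [hsq _ hl.le]; linarith
    · rw [hsq _ hl.le, hρ, hd]; linarith
  have hτ : ∀ y, Q y ≤ (r1 * l) ^ 2 → (σ * τ0 : E n ≃ₜ E n) (a - y) = l • a - y := by
    intro y hy
    have h1 : √(Q y) ≤ r1 * l := sqrtQ_le (by positivity) hy
    rw [mul_apply, hτ0, hσ]
    · rw [← add_smul, ← add_smul, show (1 + l) / 2 + (1 + l) / 2 = 1 + l by ring, add_smul,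
        add_smul, one_smul]
      abel
    · rw [← add_smul, show (1 + l) / 2 + (1 + l) / 2 = 1 + l by ring, add_smul, one_smul,
        show a + l • a - (a - y) - l • a = y by abel, mul_comm l r1]
      exact hy
    · apply Q_le_of
      have h2 : a - y - ((1 + l) / 2) • a = ((1 - l) / 2) • a + -y := by
        have : a = ((1 - l) / 2) • a + ((1 + l) / 2) • a := by
          rw [← add_smul, show (1 - l) / 2 + (1 + l) / 2 = 1 by ring, one_smul]
        nth_rw 1 [this]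
        abel
      rw [h2]
      have h3 := sqrtQ_add (((1 - l) / 2) • a) (-y)
      rw [hsq _ (by linarith), Pool.Agent.Q175.HM.Q_neg] at h3
      have h4 : r1 * l ≤ r1 := by nlinarith
      linarith
  have hτHS : σ * τ0 ∈ HS n (l * l) ρ :=
    Subgroup.mul_mem _ ⟨hσS, fun _ => σ, fun _ => hσS, fun _ => hσh, uconv_const hσh⟩
      ⟨hτ0S, fun _ => τ0, fun _ => hτ0S, fun _ => hτ0h, uconv_const hτ0h⟩
  -- the homomorphisms
  let R0 : HamBar n := ⟨R, mem_HamBar.2 (ham_mem hRh)⟩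
  let W : HamBar n →* HamBar n := (MulAut.conj R0).toMonoidHom.comp (dd n r1)
  have hr11 : r1 ≤ 1 := by linarith
  have hWval : ∀ φ : HamBar n, ((W φ : HamBar n) : E n ≃ₜ E n) =
      R * (dil r1 hr10 * (φ : E n ≃ₜ E n) * (dil r1 hr10)⁻¹) * R⁻¹ := by
    intro φ
    change R * ((dd n r1 φ : HamBar n) : E n ≃ₜ E n) * R⁻¹ = _
    rw [dd_val hr10 hr11]
  have hWS : ∀ φ : HamBar n, ((W φ : HamBar n) : E n ≃ₜ E n) ∈ HS n (l * l) ρ := by
    intro φ
    rw [hWval]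
    exact conj_HS hRh hr10 (by linarith) hr11 hR hSa φ
  let WS : HamBar n →* HS n (l * l) ρ :=
    MonoidHom.codRestrict ((HamBar n).subtype.comp W) (HS n (l * l) ρ) hWS
  let Φ : (ℕ → HamBar n) →* HamBar n := (Psi hs hs1 hρ0 hρ1).comp (MonoidHom.compLeft WS ℕ)
  have hΦ : ∀ γ, Φ γ = Psi hs hs1 hρ0 hρ1 fun k => WS (γ k) := fun _ => rfl
  refine ⟨W, Φ, Psi hs hs1 hρ0 hρ1 fun _ => ⟨σ * τ0, hτHS⟩, R0, r1, hr10, hr11, fun _ => rfl,
    fun γ => ?_, fun γ => ?_⟩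
  · rw [hΦ, Psi_shift, hΦ, dd_mul hl hl1.le hl hl1.le]
    rfl
  · rw [hΦ, hΦ, ← map_mul, ← map_inv, ← map_mul]
    refine Psi_dil hs hs1 hρ0 hρ1 hl hl1.le _ _ fun k => ?_
    change (σ * τ0) * ((W (dd n l (γ k)) : HamBar n) : E n ≃ₜ E n) * (σ * τ0)⁻¹ =
      dil l hl * ((W (γ k) : HamBar n) : E n ≃ₜ E n) * (dil l hl)⁻¹
    have hD1 : ((dd n r1 (γ k) : HamBar n) : E n ≃ₜ E n) ∈ fixOff {x : E n | Q x ≤ r1 ^ 2} := by
      rw [dd_val hr10 hr11]
      exact dil_fixOff (ham_out (γ k)) hr10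
    have hD : ((dd n r1 (dd n l (γ k)) : HamBar n) : E n ≃ₜ E n) ∈
        fixOff {x : E n | Q x ≤ (r1 * l) ^ 2} := by
      rw [dd_mul hr10 hr11 hl hl1.le, dd_val (by positivity) (by nlinarith)]
      exact dil_fixOff (ham_out (γ k)) _
    have hDD : ((dd n r1 (dd n l (γ k)) : HamBar n) : E n ≃ₜ E n) =
        dil l hl * ((dd n r1 (γ k) : HamBar n) : E n ≃ₜ E n) * (dil l hl)⁻¹ := by
      rw [← dd_val hl hl1.le, dd_mul hr10 hr11 hl hl1.le, dd_mul hl hl1.le hr10 hr11, mul_comm]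
    have hA := conj_rot (R := R) (a := a) (r := r) (q := (r1 * l) ^ 2) (by
      apply pow_le_pow_left₀ (by positivity)
      nlinarith) hR hD
    have hB := conj_rot (R := R) (a := a) (r := r) (q := r1 ^ 2) (by
      apply pow_le_pow_left₀ (by positivity)
      linarith) hR hD1
    have hq : ∀ y : E n, Q y ≤ (r1 * l) ^ 2 ↔ Q (l⁻¹ • y) ≤ r1 ^ 2 := by
      intro y
      rw [Q_smul, inv_pow, inv_mul_le_iff₀ (by positivity), mul_pow, mul_comm (l ^ 2)]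
    refine intertw hA.1 hA.2 (b := l • a) (fun y hy => ?_) (fun z hz => ?_) hD hτ
    · change (dil l hl * (R * ((dd n r1 (γ k) : HamBar n) : E n ≃ₜ E n) * R⁻¹) * (dil l hl)⁻¹ :
        E n ≃ₜ E n) (l • a - y) = _
      rw [mul_apply, mul_apply, dil_inv_apply, dil_apply, smul_sub, smul_smul,
        inv_mul_cancel₀ hl.ne', one_smul, hB.1 _ ((hq y).1 hy), smul_sub, hDD]
      rfl
    · change (dil l hl * (R * ((dd n r1 (γ k) : HamBar n) : E n ≃ₜ E n) * R⁻¹) * (dil l hl)⁻¹ :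
        E n ≃ₜ E n) z = _
      rw [mul_apply, mul_apply, dil_inv_apply, dil_apply, hB.2, smul_smul, mul_inv_cancel₀ hl.ne',
        one_smul]
      by_contra hc
      push Not at hc
      have h1 : a - l⁻¹ • z = l⁻¹ • (l • a - z) := by
        rw [smul_sub, smul_smul, inv_mul_cancel₀ hl.ne', one_smul]
      rw [h1, ← hq] at hc
      linarith

end Pool.Agent.Q175.HU
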