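import Pool.Agent.Q175.HM.Inst

/-!
Infinite products of Hamiltonian homeomorphisms with supports in a sequence of shells.
-/

set_option autoImplicit false

open Set Filter Topology Function

namespace Pool.Agent.Q175.HU

open Pool.Agent.Y453.HB
open Pool.Agent.Y496.HB (fixOff maps comm cp_apply Sh rad_anti idx)

variable {n : ℕ}

theorem cp_mul (s : ℝ) (hs : 0 < s) (g h : E n ≃ₜ E n) (k : ℕ) :
    cp s hs (g * h) k = cp s hs g k * cp s hs h k := by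
  unfold cp
  group

theorem cp_one (s : ℝ) (hs : 0 < s) (k : ℕ) : cp s hs (1 : E n ≃ₜ E n) k = 1 := by
  unfold cp
  group

theorem cp_succ (s : ℝ) (hs : 0 < s) (g : E n ≃ₜ E n) (k : ℕ) :
    cp s hs g (k + 1) = dil s hs * cp s hs g k * (dil s hs)⁻¹ := by
  unfold cp
  rw [pow_succ']
  group

section

variable (s : ℝ) (hs : 0 < s) (hs1 : s < 1) (ρ : ℝ) (hρ : 0 < ρ)

/-- finite products of copies -/
noncomputable def FF (s : ℝ) (hs : 0 < s) (θ : ℕ → (E n ≃ₜ E n)) : ℕ → (E n ≃ₜ E n)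
  | 0 => 1
  | m + 1 => FF s hs θ m * cp s hs (θ m) m

/-- the shell -/
def Sl (n : ℕ) (s ρ : ℝ) : Set (E n) := {x | (s * ρ) ^ 2 < Q x ∧ Q x ≤ ρ ^ 2}

theorem cp_memF {g : E n ≃ₜ E n} (hg : g ∈ fixOff (Sl n s ρ)) (k : ℕ) :
    cp s hs g k ∈ fixOff (Sh n s ρ k) :=
  Pool.Agent.Y496.HB.cp_mem s hs ρ g Q_smul hg k

variable {θ : ℕ → (E n ≃ₜ E n)} (hθ : ∀ k, θ k ∈ fixOff (Sl n s ρ))

include hs1 hρ hθ in
theorem FF_mem (m : ℕ) :
    FF s hs θ m ∈ fixOff {x : E n | (s ^ m * ρ) ^ 2 < Q x ∧ Q x ≤ ρ ^ 2} := by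
  induction m with
  | zero => exact Subgroup.one_mem _
  | succ m ih =>
    intro x hx
    have h1 : x ∉ Sh n s ρ m := by
      rintro ⟨h2, h3⟩
      apply hx
      refine ⟨h2, h3.trans ?_⟩
      have := rad_anti s hs hs1 ρ hρ (Nat.zero_le m)
      rwa [pow_zero, one_mul] at this
    have h2 : (cp s hs (θ m) m) x = x := (cp_memF s hs ρ (hθ m) m) x h1
    show (FF s hs θ m * cp s hs (θ m) m) x = x
    rw [Pool.Agent.Y453.HB.mul_apply, h2]
    apply ih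
    rintro ⟨h3, h4⟩
    exact hx ⟨lt_of_le_of_lt (rad_anti s hs hs1 ρ hρ (Nat.le_succ m)) h3, h4⟩

include hs1 hρ hθ in
theorem FF_stable {m M : ℕ} (hmM : m ≤ M) {x : E n} (hx : (s ^ m * ρ) ^ 2 < Q x) :
    FF s hs θ M x = FF s hs θ m x := by
  induction M, hmM using Nat.le_induction with
  | base => rfl
  | succ M hM ih =>
    have h1 : x ∉ Sh n s ρ M := by
      rintro ⟨_, h3⟩
      exact absurd (h3.trans (rad_anti s hs hs1 ρ hρ hM)) (not_le.mpr hx)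
    have h2 : (cp s hs (θ M) M) x = x := (cp_memF s hs ρ (hθ M) M) x h1
    show (FF s hs θ M * cp s hs (θ M) M) x = _
    rw [Pool.Agent.Y453.HB.mul_apply, h2, ih]

include hs1 hρ hθ in
theorem FF_ball (m M : ℕ) :
    ∀ {x : E n}, Q x ≤ (s ^ m * ρ) ^ 2 → Q (FF s hs θ M x) ≤ (s ^ m * ρ) ^ 2 := by
  induction M with
  | zero => intro x hx; exact hx
  | succ M ih =>
    intro x hx
    show Q ((FF s hs θ M * cp s hs (θ M) M) x) ≤ _
    rw [Pool.Agent.Y453.HB.mul_apply]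
    apply ih
    have hmem := cp_memF s hs ρ (hθ M) M
    by_cases h1 : x ∈ Sh n s ρ M
    · have h2 := maps hmem h1
      have h3 : m ≤ M := by
        by_contra h4
        rw [not_le] at h4
        have h5 := rad_anti s hs hs1 ρ hρ (Nat.succ_le_of_lt h4)
        exact absurd (hx.trans h5) (not_le.mpr h1.1)
      exact h2.2.trans (rad_anti s hs hs1 ρ hρ h3)
    · rw [hmem x h1]
      exact hx

include hs1 hρ hθ in
theorem FF_mul {θ' : ℕ → (E n ≃ₜ E n)} (hθ' : ∀ k, θ' k ∈ fixOff (Sl n s ρ)) (m : ℕ) :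
    FF s hs (fun k => θ k * θ' k) m = FF s hs θ m * FF s hs θ' m := by
  induction m with
  | zero => exact (mul_one _).symm
  | succ m ih =>
    have hc : FF s hs θ' m * cp s hs (θ m) m = cp s hs (θ m) m * FF s hs θ' m := by
      refine comm ?_ (FF_mem s hs hs1 ρ hρ hθ' m) (cp_memF s hs ρ (hθ m) m)
      rw [Set.disjoint_left]
      rintro x ⟨h1, _⟩ ⟨_, h2⟩
      exact absurd h2 (not_le.mpr h1)
    show FF s hs (fun k => θ k * θ' k) m * cp s hs (θ m * θ' m) m =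
      (FF s hs θ m * cp s hs (θ m) m) * (FF s hs θ' m * cp s hs (θ' m) m)
    rw [ih, cp_mul]
    calc FF s hs θ m * FF s hs θ' m * (cp s hs (θ m) m * cp s hs (θ' m) m)
        = FF s hs θ m * (FF s hs θ' m * cp s hs (θ m) m) * cp s hs (θ' m) m := by group
      _ = _ := by rw [hc]; group

theorem FF_one (m : ℕ) : FF s hs (fun _ => (1 : E n ≃ₜ E n)) m = 1 := by
  induction m with
  | zero => rfl
  | succ m ih =>
    show FF s hs (fun _ => (1 : E n ≃ₜ E n)) m * cp s hs 1 m = 1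
    rw [ih, cp_one, mul_one]

/-- the infinite product -/
noncomputable def pp (θ : ℕ → (E n ≃ₜ E n)) (x : E n) : E n := FF s hs θ (idx s ρ x) x

include hs1 hρ hθ in
theorem FF_eq_pp (x : E n) {M : ℕ} (hM : idx s ρ x ≤ M) : FF s hs θ M x = pp s hs ρ θ x := by
  unfold pp
  unfold idx at hM ⊢
  split_ifs at hM ⊢ with h
  · exact FF_stable s hs hs1 ρ hρ hθ hM h.choose_spec
  · push Not at h
    have h1 : ∀ m, FF s hs θ m x = x := fun m =>
      FF_mem s hs hs1 ρ hρ hθ m x fun h2 => absurd (h m) (not_le.mpr h2.1)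
    rw [h1, h1]

theorem mul_memF {θ θ' : ℕ → (E n ≃ₜ E n)} (hθ : ∀ k, θ k ∈ fixOff (Sl n s ρ))
    (hθ' : ∀ k, θ' k ∈ fixOff (Sl n s ρ)) : ∀ k, (fun k => θ k * θ' k) k ∈ fixOff (Sl n s ρ) :=
  fun k => Subgroup.mul_mem _ (hθ k) (hθ' k)

theorem inv_memF {θ : ℕ → (E n ≃ₜ E n)} (hθ : ∀ k, θ k ∈ fixOff (Sl n s ρ)) :
    ∀ k, (fun k => (θ k)⁻¹) k ∈ fixOff (Sl n s ρ) :=
  fun k => Subgroup.inv_mem _ (hθ k)

include hs1 hρ hθ in
theorem pp_mul {θ' : ℕ → (E n ≃ₜ E n)} (hθ' : ∀ k, θ' k ∈ fixOff (Sl n s ρ)) (x : E n) :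
    pp s hs ρ (fun k => θ k * θ' k) x = pp s hs ρ θ (pp s hs ρ θ' x) := by
  set M := max (idx s ρ x) (idx s ρ (pp s hs ρ θ' x)) with hM
  rw [← FF_eq_pp s hs hs1 ρ hρ (mul_memF s ρ hθ hθ') x (M := M) (le_max_left _ _),
    ← FF_eq_pp s hs hs1 ρ hρ hθ _ (M := M) (le_max_right _ _), FF_mul s hs hs1 ρ hρ hθ hθ',
    Pool.Agent.Y453.HB.mul_apply, FF_eq_pp s hs hs1 ρ hρ hθ' x (le_max_left _ _)]

theorem pp_one (x : E n) : pp s hs ρ (fun _ => (1 : E n ≃ₜ E n)) x = x := by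
  unfold pp
  rw [FF_one]
  rfl

include hs1 hρ hθ in
theorem pp_inv (x : E n) : pp s hs ρ (fun k => (θ k)⁻¹) (pp s hs ρ θ x) = x := by
  rw [← pp_mul s hs hs1 ρ hρ (inv_memF s ρ hθ) hθ]
  simp only [inv_mul_cancel]
  exact pp_one s hs ρ x

include hs1 hρ hθ in
theorem pp_dist (m : ℕ) (x : E n) :
    dist (pp s hs ρ θ x) (FF s hs θ m x) ≤ 2 * (s ^ m * ρ) := by
  have hr : 0 ≤ s ^ m * ρ := by positivity
  by_cases h : (s ^ m * ρ) ^ 2 < Q x
  · have h1 : FF s hs θ (max m (idx s ρ x)) x = FF s hs θ m x :=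
      FF_stable s hs hs1 ρ hρ hθ (le_max_left _ _) h
    rw [← FF_eq_pp s hs hs1 ρ hρ hθ x (le_max_right m _), h1, dist_self]
    linarith
  · rw [not_lt] at h
    have h1 : FF s hs θ m x = x :=
      FF_mem s hs hs1 ρ hρ hθ m x fun h2 => absurd h (not_le.mpr h2.1)
    have h2 : Q (pp s hs ρ θ x) ≤ (s ^ m * ρ) ^ 2 := FF_ball s hs hs1 ρ hρ hθ m _ h
    have h3 : ∀ y : E n, Q y ≤ (s ^ m * ρ) ^ 2 → ‖y‖ ≤ s ^ m * ρ := by
      intro y hy
      refine (norm_le y).trans ?_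
      rw [← Real.sqrt_sq hr]
      exact Real.sqrt_le_sqrt hy
    rw [h1, dist_eq_norm]
    refine (norm_sub_le _ _).trans ?_
    have h4 := h3 _ h2
    have h5 := h3 _ h
    linarith

include hs1 hρ hθ in
theorem pp_cont : Continuous (pp s hs ρ θ) := by
  have h1 : TendstoUniformly (fun (m : ℕ) (x : E n) => FF s hs θ m x) (pp s hs ρ θ) atTop := by
    rw [Metric.tendstoUniformly_iff]
    intro ε hε
    have h2 : Tendsto (fun m : ℕ => 2 * (s ^ m * ρ)) atTop (𝓝 0) := by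
      have h3 := ((tendsto_pow_atTop_nhds_zero_of_lt_one hs.le hs1).mul_const ρ).const_mul 2
      simpa using h3
    filter_upwards [h2.eventually_lt_const hε] with m hm x
    exact lt_of_le_of_lt (pp_dist s hs hs1 ρ hρ hθ m x) hm
  exact h1.continuous (Eventually.of_forall fun m => (FF s hs θ m).continuous).frequently

/-- the infinite product as a homeomorphism -/
noncomputable def PP (θ : ℕ → (E n ≃ₜ E n)) (hθ : ∀ k, θ k ∈ fixOff (Sl n s ρ)) : E n ≃ₜ E n where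
  toFun := pp s hs ρ θ
  invFun := pp s hs ρ fun k => (θ k)⁻¹
  left_inv x := pp_inv s hs hs1 ρ hρ hθ x
  right_inv x := by
    have := pp_inv s hs hs1 ρ hρ (inv_memF s ρ hθ) x
    simpa only [inv_inv] using this
  continuous_toFun := pp_cont s hs hs1 ρ hρ hθ
  continuous_invFun := pp_cont s hs hs1 ρ hρ (inv_memF s ρ hθ)

include hs1 hρ in
/-- uniqueness -/
theorem PP_unique (f : E n → E n) (C : ℝ)
    (hf : ∀ m x, dist (f x) (FF s hs θ m x) ≤ C * s ^ m) (x : E n) :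
    f x = PP s hs hs1 ρ hρ θ hθ x := by
  have h1 : ∀ m : ℕ, dist (f x) (PP s hs hs1 ρ hρ θ hθ x) ≤ (C + 2 * ρ) * s ^ m := by
    intro m
    calc dist (f x) (PP s hs hs1 ρ hρ θ hθ x)
        ≤ dist (f x) (FF s hs θ m x) + dist (FF s hs θ m x) (PP s hs hs1 ρ hρ θ hθ x) :=
          dist_triangle _ _ _
      _ ≤ C * s ^ m + 2 * (s ^ m * ρ) := by
          refine add_le_add (hf m x) ?_
          rw [dist_comm]
          exact pp_dist s hs hs1 ρ hρ hθ m x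
      _ = (C + 2 * ρ) * s ^ m := by ring
  have h2 : Tendsto (fun m : ℕ => (C + 2 * ρ) * s ^ m) atTop (𝓝 0) := by
    have h3 := (tendsto_pow_atTop_nhds_zero_of_lt_one hs.le hs1).const_mul (C + 2 * ρ)
    simpa using h3
  exact dist_le_zero.1 (ge_of_tendsto' h2 h1)

theorem FF_shift (θ : ℕ → (E n ≃ₜ E n)) (m : ℕ) :
    FF s hs θ (m + 1) = θ 0 * (dil s hs * FF s hs (fun k => θ (k + 1)) m * (dil s hs)⁻¹) := by
  induction m with
  | zero =>
    show (1 : E n ≃ₜ E n) * cp s hs (θ 0) 0 = θ 0 * (dil s hs * 1 * (dil s hs)⁻¹)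
    unfold cp
    group
  | succ m ih =>
    show FF s hs θ (m + 1) * cp s hs (θ (m + 1)) (m + 1) =
      θ 0 * (dil s hs * (FF s hs (fun k => θ (k + 1)) m * cp s hs (θ (m + 1)) m) * (dil s hs)⁻¹)
    rw [ih, cp_succ]
    group

theorem dil_dist {r : ℝ} (hr : 0 < r) (u v : E n ≃ₜ E n) (x : E n) :
    dist ((dil r hr * u * (dil r hr)⁻¹ : E n ≃ₜ E n) x)
      ((dil r hr * v * (dil r hr)⁻¹ : E n ≃ₜ E n) x) =
      r * dist (u (r⁻¹ • x)) (v (r⁻¹ • x)) := by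
  rw [Pool.Agent.Y453.HB.mul_apply, Pool.Agent.Y453.HB.mul_apply,
    Pool.Agent.Y453.HB.mul_apply, Pool.Agent.Y453.HB.mul_apply, dil_apply, dil_apply,
    dil_inv_apply, dist_eq_norm, dist_eq_norm, ← smul_sub, norm_smul, Real.norm_eq_abs,
    abs_of_pos hr]

include hs1 hρ in
theorem PP_mul {θ' : ℕ → (E n ≃ₜ E n)} (hθ' : ∀ k, θ' k ∈ fixOff (Sl n s ρ)) :
    PP s hs hs1 ρ hρ (fun k => θ k * θ' k) (mul_memF s ρ hθ hθ') =
      PP s hs hs1 ρ hρ θ hθ * PP s hs hs1 ρ hρ θ' hθ' :=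
  Homeomorph.ext fun x => pp_mul s hs hs1 ρ hρ hθ hθ' x

include hs1 hρ in
theorem PP_one : PP s hs hs1 ρ hρ (fun _ => (1 : E n ≃ₜ E n)) (fun _ => Subgroup.one_mem _) = 1 :=
  Homeomorph.ext fun x => pp_one s hs ρ x

include hs1 hρ in
theorem PP_shift : PP s hs hs1 ρ hρ θ hθ = θ 0 * (dil s hs *
    PP s hs hs1 ρ hρ (fun k => θ (k + 1)) (fun k => hθ (k + 1)) * (dil s hs)⁻¹) := by
  set R := PP s hs hs1 ρ hρ (fun k => θ (k + 1)) (fun k => hθ (k + 1)) with hR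
  have h0 : UniformContinuous (θ 0) := (Pool.Agent.Y309.HB.uc n).2.2.2.2 (θ 0) {x | Q x ≤ ρ ^ 2}
    (Q_compact _) (fun x hx => hθ 0 x fun h => hx h.2) |>.1
  refine Homeomorph.ext fun x => Eq.symm ?_
  -- both sides are limits of the finite products
  have hlim : Tendsto (fun m : ℕ => FF s hs θ (m + 1) x) atTop (𝓝 (PP s hs hs1 ρ hρ θ hθ x)) := by
    rw [tendsto_iff_dist_tendsto_zero]
    have h2 : Tendsto (fun m : ℕ => 2 * (s ^ (m + 1) * ρ)) atTop (𝓝 0) := by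
      have h3 := (((tendsto_pow_atTop_nhds_zero_of_lt_one hs.le hs1).comp
        (tendsto_add_atTop_nat 1)).mul_const ρ).const_mul 2
      simpa using h3
    refine squeeze_zero (fun _ => dist_nonneg) (fun m => ?_) h2
    rw [dist_comm]
    exact pp_dist s hs hs1 ρ hρ hθ (m + 1) x
  have hlim2 : Tendsto (fun m : ℕ => FF s hs θ (m + 1) x) atTop
      (𝓝 ((θ 0 * (dil s hs * R * (dil s hs)⁻¹) : E n ≃ₜ E n) x)) := by
    have h2 : Tendsto (fun m : ℕ => (dil s hs * FF s hs (fun k => θ (k + 1)) m * (dil s hs)⁻¹ :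
        E n ≃ₜ E n) x) atTop (𝓝 ((dil s hs * R * (dil s hs)⁻¹ : E n ≃ₜ E n) x)) := by
      rw [tendsto_iff_dist_tendsto_zero]
      have h2 : Tendsto (fun m : ℕ => s * (2 * (s ^ m * ρ))) atTop (𝓝 0) := by
        have h3 := (((tendsto_pow_atTop_nhds_zero_of_lt_one hs.le hs1).mul_const
          ρ).const_mul 2).const_mul s
        simpa using h3
      refine squeeze_zero (fun _ => dist_nonneg) (fun m => ?_) h2
      rw [dil_dist, dist_comm]
      exact mul_le_mul_of_nonneg_left (pp_dist s hs hs1 ρ hρ (fun k => hθ (k + 1)) m _) hs.le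
    have h3 := ((θ 0).continuous.tendsto _).comp h2
    simp only [FF_shift]
    exact h3
  exact tendsto_nhds_unique hlim2 hlim

theorem cp_dil {r : ℝ} (hr : 0 < r) (g : E n ≃ₜ E n) (k : ℕ) :
    cp s hs (dil r hr * g * (dil r hr)⁻¹) k = dil r hr * cp s hs g k * (dil r hr)⁻¹ := by
  refine Homeomorph.ext fun x => ?_
  rw [cp_apply]
  simp only [Pool.Agent.Y453.HB.mul_apply, dil_apply, dil_inv_apply, cp_apply]
  rw [smul_comm r (s ^ k), smul_comm r⁻¹ ((s ^ k)⁻¹)]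

theorem FF_dil {r : ℝ} (hr : 0 < r) (θ : ℕ → (E n ≃ₜ E n)) (m : ℕ) :
    FF s hs (fun k => dil r hr * θ k * (dil r hr)⁻¹) m =
      dil r hr * FF s hs θ m * (dil r hr)⁻¹ := by
  induction m with
  | zero =>
    show (1 : E n ≃ₜ E n) = dil r hr * 1 * (dil r hr)⁻¹
    group
  | succ m ih =>
    show FF s hs (fun k => dil r hr * θ k * (dil r hr)⁻¹) m *
      cp s hs (dil r hr * θ m * (dil r hr)⁻¹) m = dil r hr * (FF s hs θ m * cp s hs (θ m) m) *
        (dil r hr)⁻¹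
    rw [ih, cp_dil]
    group

include hs1 hρ in
theorem PP_dil {r : ℝ} (hr : 0 < r)
    (hθ' : ∀ k, (fun k => dil r hr * θ k * (dil r hr)⁻¹) k ∈ fixOff (Sl n s ρ)) :
    PP s hs hs1 ρ hρ (fun k => dil r hr * θ k * (dil r hr)⁻¹) hθ' =
      dil r hr * PP s hs hs1 ρ hρ θ hθ * (dil r hr)⁻¹ := by
  refine Homeomorph.ext fun x => Eq.symm ?_
  refine PP_unique s hs hs1 ρ hρ hθ'
    (fun x => (dil r hr * PP s hs hs1 ρ hρ θ hθ * (dil r hr)⁻¹ : E n ≃ₜ E n) x) (r * (2 * ρ))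
    (fun m x => ?_) x
  rw [FF_dil, dil_dist]
  have h1 := pp_dist s hs hs1 ρ hρ hθ m (r⁻¹ • x)
  calc r * dist (PP s hs hs1 ρ hρ θ hθ (r⁻¹ • x)) (FF s hs θ m (r⁻¹ • x))
      ≤ r * (2 * (s ^ m * ρ)) := mul_le_mul_of_nonneg_left h1 hr.le
    _ = r * (2 * ρ) * s ^ m := by ring

end

/-- the Hamiltonian homeomorphisms with support in a shell -/
def HS (n : ℕ) (s ρ : ℝ) : Subgroup (E n ≃ₜ E n) where
  carrier := {φ | φ ∈ fixOff (Sl n s ρ) ∧ ∃ u : ℕ → (E n ≃ₜ E n), (∀ k, u k ∈ fixOff (Sl n s ρ)) ∧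
    (∀ k, IsHam (u k)) ∧ UConv u φ}
  one_mem' := ⟨Subgroup.one_mem _, fun _ => 1, fun _ => Subgroup.one_mem _,
    fun _ => (Pool.Agent.Y510.HB.inv n).1, Pool.Agent.Y309.HB.uc_one⟩
  mul_mem' := by
    rintro φ ψ ⟨h1, u, h2, h3, h4⟩ ⟨h1', v, h2', h3', h4'⟩
    exact ⟨Subgroup.mul_mem _ h1 h1', fun k => u k * v k,
      fun k => Subgroup.mul_mem _ (h2 k) (h2' k), fun k => Pool.Agent.Y907.HB.mul n _ _ (h3 k) (h3' k),
      (Pool.Agent.Y309.HB.uc n).1 _ _ _ _ h4 h4'⟩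
  inv_mem' := by
    rintro φ ⟨h1, u, h2, h3, h4⟩
    exact ⟨Subgroup.inv_mem _ h1, fun k => (u k)⁻¹, fun k => Subgroup.inv_mem _ (h2 k),
      fun k => (Pool.Agent.Y510.HB.inv n).2 _ (h3 k), (Pool.Agent.Y309.HB.uc n).2.1 _ _ h4⟩

end Pool.Agent.Q175.HU
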