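import Pool.Agent.Q175.HM.Inst
import Pool.Agent.Q175.HU.Ab

/-!
The group of Hamiltonian homeomorphisms of the ball as a union of Polish groups.
-/

set_option autoImplicit false

open Set Filter Topology MeasureTheory Function

namespace Pool.Agent.Q175.HU

open Pool.Agent.Y453.HB

variable {n : ℕ}

/-- continuous maps -/
abbrev CE (n : ℕ) : Type := C(E n, E n)

instance polish_CE : PolishSpace (CE n) := by
  have h1 : CompleteSpace C(E n, E n) := inferInstance
  have h2 : (uniformity C(E n, E n)).IsCountablyGenerated := inferInstance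
  have h3 : T0Space C(E n, E n) := inferInstance
  have h4 : SecondCountableTopology C(E n, E n) := inferInstance
  have h5 : TopologicalSpace.IsCompletelyMetrizableSpace C(E n, E n) := inferInstance
  exact ⟨⟩

/-- a homeomorphism and its inverse -/
def pr (u : E n ≃ₜ E n) : CE n × CE n := (⟨u, u.continuous⟩, ⟨u.symm, u.symm.continuous⟩)

/-- the Hamiltonian diffeomorphisms which are the identity off `K` -/
def sm (K : Set (E n)) : Set (CE n × CE n) :=
  {p | ∃ u : E n ≃ₜ E n, IsHam u ∧ (∀ x, x ∉ K → u x = x) ∧ pr u = p}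

/-- the product of pairs -/
def mu (p q : CE n × CE n) : CE n × CE n := (p.1.comp q.1, q.2.comp p.2)

theorem pr_mul (u v : E n ≃ₜ E n) : pr (u * v) = mu (pr u) (pr v) := rfl

theorem mu_cont : Continuous fun z : (CE n × CE n) × (CE n × CE n) => mu z.1 z.2 := by
  refine Continuous.prodMk ?_ ?_
  · exact ContinuousMap.continuous_comp'.comp
      ((continuous_fst.comp continuous_snd).prodMk (continuous_fst.comp continuous_fst))
  · exact ContinuousMap.continuous_comp'.comp
      ((continuous_snd.comp continuous_fst).prodMk (continuous_snd.comp continuous_snd))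

theorem sm_one (K : Set (E n)) : pr (1 : E n ≃ₜ E n) ∈ sm K :=
  ⟨1, (Pool.Agent.Y510.HB.inv n).1, fun _ _ => rfl, rfl⟩

theorem sm_mul {K : Set (E n)} {p q : CE n × CE n} (hp : p ∈ sm K) (hq : q ∈ sm K) :
    mu p q ∈ sm K := by
  obtain ⟨u, hu1, hu2, rfl⟩ := hp
  obtain ⟨v, hv1, hv2, rfl⟩ := hq
  refine ⟨u * v, Pool.Agent.Y907.HB.mul n u v hu1 hv1, fun x hx => ?_, rfl⟩
  rw [Pool.Agent.Y453.HB.mul_apply, hv2 x hx, hu2 x hx]

theorem sm_inv {K : Set (E n)} {p : CE n × CE n} (hp : p ∈ sm K) : p.swap ∈ sm K := by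
  obtain ⟨u, hu1, hu2, rfl⟩ := hp
  refine ⟨u⁻¹, (Pool.Agent.Y510.HB.inv n).2 u hu1, fun x hx => ?_, rfl⟩
  have h1 := inv_apply_self u x
  rwa [hu2 x hx] at h1

theorem cl_ind {K : Set (E n)} {P : CE n × CE n → Prop} (hP : IsClosed {p | P p})
    (h : ∀ u : E n ≃ₜ E n, (∀ x, x ∉ K → u x = x) → P (pr u)) {p : CE n × CE n}
    (hp : p ∈ closure (sm K)) : P p := by
  refine closure_minimal ?_ hP hp
  rintro _ ⟨u, -, hu, rfl⟩
  exact h u hu

theorem cl_left {K : Set (E n)} {p : CE n × CE n} (hp : p ∈ closure (sm K)) :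
    p.2.comp p.1 = ContinuousMap.id (E n) := by
  refine cl_ind (P := fun p => p.2.comp p.1 = ContinuousMap.id (E n)) ?_ (fun u _ => ?_) hp
  · exact isClosed_eq (ContinuousMap.continuous_comp'.comp
      (continuous_fst.prodMk continuous_snd)) continuous_const
  · ext1 x
    exact u.symm_apply_apply x

theorem cl_right {K : Set (E n)} {p : CE n × CE n} (hp : p ∈ closure (sm K)) :
    p.1.comp p.2 = ContinuousMap.id (E n) := by
  refine cl_ind (P := fun p => p.1.comp p.2 = ContinuousMap.id (E n)) ?_ (fun u _ => ?_) hp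
  · exact isClosed_eq (ContinuousMap.continuous_comp'.comp
      (continuous_snd.prodMk continuous_fst)) continuous_const
  · ext1 x
    exact u.apply_symm_apply x

theorem cl_fix {K : Set (E n)} {p : CE n × CE n} (hp : p ∈ closure (sm K)) (x : E n)
    (hx : x ∉ K) : p.1 x = x := by
  refine cl_ind (P := fun p => p.1 x = x) ?_ (fun u hu => hu x hx) hp
  exact isClosed_eq ((ContinuousEvalConst.continuous_eval_const x).comp continuous_fst)
    continuous_const

/-- the Polish group of the set `K` -/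
def LG (K : Set (E n)) : Type := {p : CE n × CE n // p ∈ closure (sm K)}

instance (K : Set (E n)) : TopologicalSpace (LG K) :=
  inferInstanceAs (TopologicalSpace {p : CE n × CE n // p ∈ closure (sm K)})

instance (K : Set (E n)) : PolishSpace (LG K) :=
  (isClosed_closure (s := sm K)).polishSpace

instance (K : Set (E n)) : Mul (LG K) :=
  ⟨fun p q => ⟨mu p.1 q.1, map_mem_closure₂ mu_cont p.2 q.2 fun _ ha _ hb => sm_mul ha hb⟩⟩

instance (K : Set (E n)) : One (LG K) := ⟨⟨pr 1, subset_closure (sm_one K)⟩⟩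

instance (K : Set (E n)) : Inv (LG K) :=
  ⟨fun p => ⟨p.1.swap, map_mem_closure continuous_swap p.2 fun _ ha => sm_inv ha⟩⟩

instance (K : Set (E n)) : Group (LG K) :=
  Group.ofLeftAxioms (fun _ _ _ => Subtype.ext rfl) (fun _ => Subtype.ext rfl)
    (fun p => Subtype.ext (Prod.ext (cl_left p.2) (cl_left p.2)))

instance (K : Set (E n)) : IsTopologicalGroup (LG K) where
  continuous_mul := Continuous.subtype_mk (mu_cont.comp
    ((continuous_subtype_val.comp continuous_fst).prodMk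
      (continuous_subtype_val.comp continuous_snd))) _
  continuous_inv := Continuous.subtype_mk (continuous_swap.comp continuous_subtype_val) _

/-- the homeomorphism -/
def hm {K : Set (E n)} (p : LG K) : E n ≃ₜ E n where
  toFun := p.1.1
  invFun := p.1.2
  left_inv x := DFunLike.congr_fun (cl_left p.2) x
  right_inv x := DFunLike.congr_fun (cl_right p.2) x
  continuous_toFun := p.1.1.continuous
  continuous_invFun := p.1.2.continuous

theorem pr_hm {K : Set (E n)} (p : LG K) : pr (hm p) = p.1 := rfl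

theorem pr_inj {u v : E n ≃ₜ E n} (h : pr u = pr v) : u = v := by
  refine Homeomorph.ext fun x => ?_
  exact DFunLike.congr_fun (congrArg Prod.fst h) x

theorem hm_mem {K : Set (E n)} (hK : IsCompact K) (hK1 : K ⊆ {p : E n | Q p < 1}) (p : LG K) :
    hm p ∈ hamBar n := by
  obtain ⟨q, hq, hlim⟩ := mem_closure_iff_seq_limit.1 p.2
  choose u hu1 hu2 hu3 using hq
  refine ⟨K, hK, hK1, fun x hx => cl_fix p.2 x hx, u, hu2, hu1, ?_⟩
  have h1 : Tendsto (fun k => (q k).1) atTop (𝓝 p.1.1) := (continuous_fst.tendsto _).comp hlim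
  have h2 := ContinuousMap.tendsto_iff_forall_isCompact_tendstoUniformlyOn.1 h1 K hK
  rw [Metric.tendstoUniformlyOn_iff] at h2
  rw [Metric.tendstoUniformly_iff]
  intro ε hε
  filter_upwards [h2 ε hε] with k hk x
  by_cases hx : x ∈ K
  · have h3 := hk x hx
    rw [← hu3 k] at h3
    exact h3
  · have h3 : hm p x = x := cl_fix p.2 x hx
    rw [h3, hu2 k x hx, dist_self]
    exact hε

theorem of_hamBar {K : Set (E n)} (hK : IsCompact K) {φ : E n ≃ₜ E n}
    (h1 : ∀ x, x ∉ K → φ x = x) {u : ℕ → (E n ≃ₜ E n)} (h2 : ∀ k, ∀ x, x ∉ K → u k x = x)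
    (h3 : ∀ k, IsHam (u k))
    (h4 : TendstoUniformly (fun (k : ℕ) (x : E n) => u k x) (fun x => φ x) Filter.atTop) :
    pr φ ∈ closure (sm K) := by
  have hu := uconv_of Pool.Agent.Y309.HB.uc hK h1 h4
  have hi := (Pool.Agent.Y309.HB.uc n).2.1 _ _ hu
  refine mem_closure_of_tendsto (b := atTop) (f := fun k => pr (u k)) ?_
    (Eventually.of_forall fun k => ⟨u k, h3 k, h2 k, rfl⟩)
  refine Tendsto.prodMk_nhds ?_ ?_
  · exact ContinuousMap.tendsto_of_tendstoLocallyUniformly hu.1.tendstoLocallyUniformly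
  · exact ContinuousMap.tendsto_of_tendstoLocallyUniformly hi.1.tendstoLocallyUniformly

/-- neighbourhoods of the identity -/
theorem nhds_one {K : Set (E n)} {U : Set (LG K)} (hU : U ∈ 𝓝 (1 : LG K)) :
    ∃ ε : ℝ, 0 < ε ∧ ∀ p : LG K, (∀ x, dist (hm p x) x < ε) → p ∈ U := by
  by_contra hcon
  push Not at hcon
  choose p hp1 hp2 using fun k : ℕ => hcon (1 / ((k : ℝ) + 1)) (by positivity)
  have h0 : Tendsto (fun k : ℕ => 1 / ((k : ℝ) + 1)) atTop (𝓝 0) :=
    tendsto_one_div_add_atTop_nhds_zero_nat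
  have h1 : TendstoUniformly (fun (k : ℕ) (x : E n) => hm (p k) x) (fun x => x) atTop := by
    rw [Metric.tendstoUniformly_iff]
    intro ε hε
    filter_upwards [h0.eventually (gt_mem_nhds hε)] with k hk x
    rw [dist_comm]
    exact (hp1 k x).trans hk
  have h2 : TendstoUniformly (fun (k : ℕ) (x : E n) => (hm (p k)).symm x) (fun x => x) atTop := by
    rw [Metric.tendstoUniformly_iff]
    intro ε hε
    filter_upwards [h0.eventually (gt_mem_nhds hε)] with k hk x
    have h3 := hp1 k ((hm (p k)).symm x)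
    rw [(hm (p k)).apply_symm_apply] at h3
    exact h3.trans hk
  have h3 : Tendsto p atTop (𝓝 (1 : LG K)) := by
    have hi : IsInducing (fun q : LG K => q.1) := IsInducing.subtypeVal
    rw [hi.tendsto_nhds_iff]
    refine Tendsto.prodMk_nhds ?_ ?_
    · exact ContinuousMap.tendsto_of_tendstoLocallyUniformly h1.tendstoLocallyUniformly
    · exact ContinuousMap.tendsto_of_tendstoLocallyUniformly h2.tendstoLocallyUniformly
  obtain ⟨k, hk⟩ := (h3.eventually_mem hU).exists
  exact hp2 k hk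

/-- the compact subsets of the open ball -/
def KI (n : ℕ) : Type := {K : Set (E n) // IsCompact K ∧ K ⊆ {p : E n | Q p < 1}}

instance : SemilatticeSup (KI n) :=
  Subtype.semilatticeSup fun {_ _} h1 h2 => ⟨h1.1.union h2.1, union_subset h1.2 h2.2⟩

/-- the map to the group of Hamiltonian homeomorphisms -/
def tt (i : KI n) : LG i.1 →* HamBar n where
  toFun p := ⟨hm p, Q175.HM.mem_HamBar.2 (hm_mem i.2.1 i.2.2 p)⟩
  map_one' := Subtype.ext (Homeomorph.ext fun _ => rfl)
  map_mul' _ _ := Subtype.ext (Homeomorph.ext fun _ => rfl)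

theorem tt_inj (i : KI n) : Injective (tt i) := by
  intro p q h
  apply Subtype.ext
  rw [← pr_hm, ← pr_hm]
  exact congrArg pr (congrArg Subtype.val h)

theorem sm_mono {K K' : Set (E n)} (h : K ⊆ K') : sm K ⊆ sm K' := by
  rintro _ ⟨u, h1, h2, rfl⟩
  exact ⟨u, h1, fun x hx => h2 x fun hx' => hx (h hx'), rfl⟩

/-- inclusions -/
def ci (i j : KI n) (h : i ≤ j) : LG i.1 →* LG j.1 where
  toFun p := ⟨p.1, closure_mono (sm_mono h) p.2⟩
  map_one' := rfl
  map_mul' _ _ := rfl

theorem ci_cont (i j : KI n) (h : i ≤ j) : Continuous (ci i j h) :=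
  Continuous.subtype_mk continuous_subtype_val _

theorem tt_ci (i j : KI n) (h : i ≤ j) (x : LG i.1) : tt j (ci i j h x) = tt i x := rfl

/-- closed balls -/
def Bm (n m : ℕ) : KI n :=
  ⟨{p | Q p ≤ 1 - 1 / ((m : ℝ) + 1)}, Q_compact _, fun p hp => by
    have h1 : Q p ≤ 1 - 1 / ((m : ℝ) + 1) := hp
    have h2 : 0 < 1 / ((m : ℝ) + 1) := by positivity
    change Q p < 1
    linarith⟩

theorem le_Bm (i : KI n) : ∃ m, i ≤ Bm n m := by
  rcases i.1.eq_empty_or_nonempty with he | hne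
  · refine ⟨0, ?_⟩
    change i.1 ⊆ _
    rw [he]
    exact empty_subset _
  · obtain ⟨x, hx, hmax⟩ := i.2.1.exists_isMaxOn hne Q_cont.continuousOn
    have h1 : Q x < 1 := i.2.2 hx
    obtain ⟨m, hm⟩ := exists_nat_one_div_lt (show 0 < 1 - Q x by linarith)
    refine ⟨m, fun y hy => ?_⟩
    have h2 : Q y ≤ Q x := hmax hy
    change Q y ≤ _
    linarith

theorem exists_tt (φ : HamBar n) : ∃ (i : KI n) (p : LG i.1), tt i p = φ := by
  obtain ⟨K, hK, hK1, h1, u, h2, h3, h4⟩ := Q175.HM.mem_HamBar.1 φ.2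
  refine ⟨⟨K, hK, hK1⟩, ⟨pr φ.1, of_hamBar hK h1 h2 h3 h4⟩, ?_⟩
  apply Subtype.ext
  exact pr_inj rfl

/-- products of conjugates of an element and of its inverse -/
theorem conj_auto (g : HamBar n) (hg : ∀ x : HamBar n, ∃ l : List (HamBar n),
      (∀ y ∈ l, ∃ h, y = h * g * h⁻¹ ∨ y⁻¹ = h * g * h⁻¹) ∧ l.prod = x) (i : KI n) :
    ∃ N : ℕ, ∃ ε : ℝ, 0 < ε ∧ ∀ p : LG i.1, (∀ x, dist (hm p x) x < ε) →
      ∃ l : List (HamBar n), l.length ≤ N ∧
        (∀ y ∈ l, ∃ h, y = h * g * h⁻¹ ∨ y⁻¹ = h * g * h⁻¹) ∧ l.prod = tt i p := by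
  obtain ⟨k, g', rfl⟩ := exists_tt g
  let V : ℕ → Set (HamBar n) := fun m => tt (Bm n m ⊔ k) ''
    (range fun h : LG (Bm n m ⊔ k).1 => h * ci k (Bm n m ⊔ k) le_sup_right g' * h⁻¹)
  have hV : ∀ m, Cl (fun i : KI n => LG i.1) tt (V m) := fun m =>
    ⟨_, _, analyticSet_range_of_polishSpace (by fun_prop), rfl⟩
  have hV2 : ∀ y, (∃ m, y ∈ V m) ↔ ∃ h, y = h * tt k g' * h⁻¹ := by
    intro y
    constructor
    · rintro ⟨m, _, ⟨h, rfl⟩, rfl⟩
      refine ⟨tt _ h, ?_⟩
      rw [map_mul, map_mul, map_inv]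
      rfl
    · rintro ⟨h, rfl⟩
      obtain ⟨j, h', rfl⟩ := exists_tt h
      obtain ⟨m, hm⟩ := le_Bm j
      refine ⟨m, _, ⟨ci j (Bm n m ⊔ k) (hm.trans le_sup_left) h', rfl⟩, ?_⟩
      rw [map_mul, map_mul, map_inv]
      rfl
  have hV3 : ∀ y, (∃ m, y ∈ V m ∨ y⁻¹ ∈ V m) ↔
      ∃ h, y = h * tt k g' * h⁻¹ ∨ y⁻¹ = h * tt k g' * h⁻¹ := by
    intro y
    rw [exists_or, exists_or, hV2, hV2]
  obtain ⟨N, hN⟩ := auto (ι := KI n) (L := fun i : KI n => LG i.1) (t := tt) ci tt_ci ci_cont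
    tt_inj V hV (fun x => by
      obtain ⟨l, h1, h2⟩ := hg x
      exact ⟨l, fun y hy => (hV3 y).2 (h1 y hy), h2⟩) i
  obtain ⟨ε, hε, h⟩ := nhds_one hN
  refine ⟨N, ε, hε, fun p hp => ?_⟩
  obtain ⟨l, h1, h2, h3⟩ := h p hp
  exact ⟨l, h1, fun y hy => (hV3 y).1 (h2 y hy), h3⟩

end Pool.Agent.Q175.HU
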