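import Pool.Agent.Q175.HU.Dat
import Pool.Agent.Q175.HU.Pol
import Pool.Agent.Q175.HU.Alg

/-!
Simplicity of the group of Hamiltonian homeomorphisms of the ball and uniform fragmentation.
-/

set_option autoImplicit false

open Set Filter Topology Function

namespace Pool.Agent.Q175.HU

open Pool.Agent.Y453.HB
open Pool.Agent.Y496.HB (fixOff maps comm)
open Pool.Agent.Q175.HM (dd dd_val dd_mul mem_HamBar)

variable {n : ℕ}

/-- the subgroup of the small ball of radius `s` -/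
noncomputable def Hs (n : ℕ) (s : ℝ) : Subgroup (HamBar n) := (dd n s).range

theorem Hs_mono {s t : ℝ} (hs : 0 < s) (hst : s ≤ t) (ht : t ≤ 1) : Hs n s ≤ Hs n t := by
  have ht0 : 0 < t := hs.trans_le hst
  rintro _ ⟨φ, rfl⟩
  refine ⟨dd n (s / t) φ, ?_⟩
  rw [dd_mul ht0 ht (by positivity) ((div_le_one ht0).2 hst), mul_div_cancel₀ _ ht0.ne']

theorem Hs_fix {s : ℝ} (hs : 0 < s) (hs1 : s ≤ 1) {φ : HamBar n} (h : φ ∈ Hs n s) :
    (φ : E n ≃ₜ E n) ∈ fixOff {x : E n | Q x ≤ s ^ 2} := by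
  obtain ⟨ψ, rfl⟩ := h
  rw [dd_val hs hs1]
  exact dil_fixOff (ham_out ψ) hs

/-- a normal subgroup containing a small subgroup is everything -/
theorem top_of_small {s t : ℝ} {m : ℕ} (ht : 0 < t) (hts : t < s) (hs1 : s < 1)
    (hgen : Subgroup.normalClosure (Hs n s : Set (HamBar n)) = ⊤)
    (hfr : ∀ x ∈ Hs n s, CP (Hs n t : Set (HamBar n)) m x) (N : Subgroup (HamBar n)) [N.Normal]
    {q : ℝ} (hq : 0 < q) (hq1 : q ≤ 1) (hN : Hs n q ≤ N) : N = ⊤ := by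
  have hs : 0 < s := ht.trans hts
  set l : ℝ := t / s with hl
  have hl0 : 0 < l := by positivity
  have hl1 : l < 1 := (div_lt_one hs).2 hts
  have hls : l * s = t := div_mul_cancel₀ _ hs.ne'
  have hpow : ∀ k : ℕ, 0 < l ^ k ∧ l ^ k ≤ 1 := fun k =>
    ⟨pow_pos hl0 k, pow_le_one₀ hl0.le hl1.le⟩
  have hstep : ∀ k : ℕ, Hs n (l ^ (k + 1) * s) ≤ N → Hs n (l ^ k * s) ≤ N := by
    intro k hk
    rintro _ ⟨φ, rfl⟩
    rw [← dd_mul (hpow k).1 (hpow k).2 hs hs1.le]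
    obtain ⟨w, -, hw, hw2⟩ := hfr (dd n s φ) ⟨φ, rfl⟩
    rw [← hw2, map_list_prod]
    refine Subgroup.list_prod_mem _ fun y hy => ?_
    obtain ⟨z, hz, rfl⟩ := List.mem_map.1 hy
    obtain ⟨h, f, ⟨ψ, rfl⟩, rfl⟩ := hw z hz
    rw [map_mul, map_mul, map_inv]
    refine Subgroup.Normal.conj_mem inferInstance _ (hk ⟨ψ, ?_⟩) _
    rw [dd_mul (hpow k).1 (hpow k).2 ht (by linarith), pow_succ, mul_assoc, hls]
  have hall : ∀ k : ℕ, Hs n (l ^ k * s) ≤ N → Hs n s ≤ N := by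
    intro k
    induction k with
    | zero => intro h; rwa [pow_zero, one_mul] at h
    | succ k ih => exact fun h => ih (hstep k h)
  obtain ⟨k, hk⟩ := exists_pow_lt_of_lt_one hq hl1
  have h1 : Hs n s ≤ N := hall k ((Hs_mono (mul_pos (hpow k).1 hs) (by
    have := mul_le_of_le_one_right (hpow k).1.le hs1.le
    linarith) hq1).trans hN)
  rw [eq_top_iff, ← hgen]
  exact Subgroup.normalClosure_le_normal h1

/-- the group is perfect -/
theorem perfect_of (hn : 0 < n) {s t : ℝ} {m : ℕ} (ht : 0 < t) (hts : t < s) (hs1 : s < 1)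
    (hgen : Subgroup.normalClosure (Hs n s : Set (HamBar n)) = ⊤)
    (hfr : ∀ x ∈ Hs n s, CP (Hs n t : Set (HamBar n)) m x) : commutator (HamBar n) = ⊤ := by
  have hs : 0 < s := ht.trans hts
  have hl0 : 0 < t / s := by positivity
  have hl1 : t / s < 1 := (div_lt_one hs).2 hts
  obtain ⟨W, Φ, τ, R0, r, hr, hr1, hW, hΦ, hτ⟩ := exists_data hn hl0 hl1
  have key : ∀ γ ∈ Hs n s, Abelianization.of (W γ) = 1 := by
    refine swindle Abelianization.of (dd n (t / s)) W Φ τ hΦ hτ (Hs n s) m fun γ hγ => ?_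
    obtain ⟨w, hw1, hw2, hw3⟩ := hfr γ hγ
    obtain ⟨h, f, hf, hp⟩ := CC_of (Hs n t).one_mem w m hw1 hw2
    choose g hg using hf
    refine ⟨h, fun j => dd n s (g j), fun j => ⟨g j, rfl⟩, ?_⟩
    rw [← hw3, hp]
    have e1 : f = fun j => dd n (t / s) (dd n s (g j)) := by
      funext j
      rw [dd_mul hl0 hl1.le hs hs1.le, div_mul_cancel₀ _ hs.ne', hg]
    rw [e1]
  refine top_of_small ht hts hs1 hgen hfr _ (mul_pos hr hs) (by nlinarith) ?_
  rintro _ ⟨φ, rfl⟩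
  rw [← dd_mul hr hr1 hs hs1.le]
  have h1 := key (dd n s φ) ⟨φ, rfl⟩
  rw [hW] at h1
  have h2 : R0 * dd n r (dd n s φ) * R0⁻¹ ∈ commutator (HamBar n) := by
    rw [← Abelianization.ker_of]
    exact h1
  have h3 := Subgroup.Normal.conj_mem inferInstance _ h2 R0⁻¹
  rwa [show R0⁻¹ * (R0 * dd n r (dd n s φ) * R0⁻¹) * R0⁻¹⁻¹ = dd n r (dd n s φ) by group] at h3

/-- nontrivial elements displace small balls, up to conjugation -/
theorem displace {g : HamBar n} (hg : g ≠ 1) : ∃ (R : HamBar n) (q : ℝ), 0 < q ∧ q ≤ 1 ∧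
    ∀ f ∈ Hs n q, ∀ h ∈ Hs n q,
      f * ((R⁻¹ * g * R) * h * (R⁻¹ * g * R)⁻¹) = ((R⁻¹ * g * R) * h * (R⁻¹ * g * R)⁻¹) * f := by
  obtain ⟨p, hp⟩ : ∃ p, (g : E n ≃ₜ E n) p ≠ p := by
    by_contra hcon
    push Not at hcon
    exact hg (Subtype.ext (Homeomorph.ext hcon))
  have hp1 : Q p < 1 := by
    by_contra hc
    exact hp (ham_out g p (not_lt.1 hc))
  have hp2 : √(Q p) < 1 := by rwa [Real.sqrt_lt' one_pos, one_pow]
  have hp0 : 0 ≤ √(Q p) := Real.sqrt_nonneg _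
  obtain ⟨R, hRh, -, hR⟩ := rotm ((1 / 2 : ℝ) • p) (c := √(Q p) / 2 + (1 - √(Q p)) / 4)
    (ρ := √(Q p) / 2 + (1 - √(Q p)) / 3) (by linarith) (by linarith) (by
      have h1 : √(Q ((1 / 2 : ℝ) • p)) = √(Q p) / 2 := by
        rw [Q_smul, Real.sqrt_mul (by positivity), Real.sqrt_sq (by norm_num)]
        ring
      rw [h1]
      linarith)
  have hR0 : R 0 = p := by
    rw [hR, ← add_smul]
    · norm_num
    · rw [zero_sub, ← neg_smul, Q_smul, show (-(1 / 2 : ℝ)) ^ 2 * Q p = (√(Q p) / 2) ^ 2 by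
        rw [div_pow, Real.sq_sqrt (Q_nonneg p)]
        ring]
      exact pow_le_pow_left₀ (by positivity) (by linarith) 2
  let R' : HamBar n := ⟨R, mem_HamBar.2 (ham_mem hRh)⟩
  set g' : HamBar n := R'⁻¹ * g * R' with hg'
  have h0 : (g' : E n ≃ₜ E n) 0 ≠ 0 := by
    intro hc
    have h1 : R⁻¹ ((g : E n ≃ₜ E n) (R 0)) = 0 := hc
    rw [hR0] at h1
    have h2 := congrArg R h1
    rw [apply_inv_self, hR0] at h2
    exact hp h2
  have hκ : 0 < Q ((g' : E n ≃ₜ E n) 0) := by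
    rcases (Q_nonneg ((g' : E n ≃ₜ E n) 0)).eq_or_lt with h | h
    · exact absurd (Q_eq_zero _ h.symm) h0
    · exact h
  set κ := Q ((g' : E n ≃ₜ E n) 0) with hκ'
  have hcont : Continuous fun x => Q ((g' : E n ≃ₜ E n) x) :=
    Q_cont.comp (g' : E n ≃ₜ E n).continuous
  obtain ⟨δ, hδ, hδ2⟩ := Metric.eventually_nhds_iff.1
    (hcont.continuousAt.eventually (lt_mem_nhds (show κ / 2 < κ by linarith)))
  obtain ⟨q, hq, hq2⟩ : ∃ q : ℝ, 0 < q ∧ q < min (min δ 1) (κ / 2) :=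
    exists_between (lt_min (lt_min hδ one_pos) (by linarith))
  have hqδ : q < δ := hq2.trans_le ((min_le_left _ _).trans (min_le_left _ _))
  have hq1 : q < 1 := hq2.trans_le ((min_le_left _ _).trans (min_le_right _ _))
  have hqκ : q < κ / 2 := hq2.trans_le (min_le_right _ _)
  have hqq : q ^ 2 < κ / 2 := by nlinarith
  have hdisp : ∀ x : E n, Q x ≤ q ^ 2 → q ^ 2 < Q ((g' : E n ≃ₜ E n) x) := by
    intro x hx
    refine hqq.trans (hδ2 ?_)
    rw [dist_zero_right]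
    exact ((norm_le x).trans (sqrtQ_le hq.le hx)).trans_lt hqδ
  refine ⟨R', q, hq, hq1.le, fun f hf h hh => ?_⟩
  have hf' := Hs_fix hq hq1.le hf
  have hh' := Hs_fix hq hq1.le hh
  apply Subtype.ext
  have h1 : ((g' * h * g'⁻¹ : HamBar n) : E n ≃ₜ E n) ∈
      fixOff {x : E n | Q ((g' : E n ≃ₜ E n)⁻¹ x) ≤ q ^ 2} := by
    intro x hx
    change (g' : E n ≃ₜ E n) ((h : E n ≃ₜ E n) ((g' : E n ≃ₜ E n)⁻¹ x)) = x
    rw [hh' _ hx, apply_inv_self]
  refine comm (S := {x : E n | Q x ≤ q ^ 2}) (Set.disjoint_left.2 fun x hx1 hx2 => ?_) hf' h1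
  have h2 := hdisp _ hx2
  rw [apply_inv_self] at h2
  exact absurd h2 (not_lt.2 hx1)

/-- simplicity from fragmentation -/
theorem simple_of (hn : 0 < n) {s t : ℝ} {m : ℕ} (ht : 0 < t) (hts : t < s) (hs1 : s < 1)
    (hgen : Subgroup.normalClosure (Hs n s : Set (HamBar n)) = ⊤)
    (hfr : ∀ x ∈ Hs n s, CP (Hs n t : Set (HamBar n)) m x) (N : Subgroup (HamBar n)) [hN : N.Normal]
    (hne : N ≠ ⊥) : N = ⊤ := by
  have hperf := perfect_of hn ht hts hs1 hgen hfr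
  obtain ⟨a, ha⟩ := Subgroup.ne_bot_iff_exists_ne_one.1 hne
  obtain ⟨g, hg, hg1⟩ : ∃ g : HamBar n, g ∈ N ∧ g ≠ 1 :=
    ⟨a.1, a.2, fun h => ha (Subtype.ext h)⟩
  obtain ⟨R, q, hq, hq1, hcomm⟩ := displace hg1
  refine top_of_small ht hts hs1 hgen hfr N hq hq1 ?_
  have hg' : R⁻¹ * g * R ∈ N := by
    have := hN.conj_mem g hg R⁻¹
    rwa [inv_inv] at this
  have h1 : ⁅Hs n q, Hs n q⁆ ≤ N := by
    rw [Subgroup.commutator_le]
    intro f hf h hh
    have h2 := hcomm f hf h⁻¹ ((Hs n q).inv_mem hh)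
    set k := (R⁻¹ * g * R) * h⁻¹ * (R⁻¹ * g * R)⁻¹ with hk
    have h3 : h * k ∈ N := by
      rw [hk]
      have h4 := N.mul_mem (hN.conj_mem _ hg' h) (N.inv_mem hg')
      rwa [show h * (R⁻¹ * g * R) * h⁻¹ * (R⁻¹ * g * R)⁻¹ =
        h * ((R⁻¹ * g * R) * h⁻¹ * (R⁻¹ * g * R)⁻¹) by group] at h4
    change f * h * f⁻¹ * h⁻¹ ∈ N
    have h5 : f * h * f⁻¹ * h⁻¹ = (f * (h * k) * f⁻¹) * (h * k)⁻¹ := by
      have h6 : k * f⁻¹ = f⁻¹ * k := by
        rw [← mul_left_cancel_iff (a := f), ← mul_assoc, h2]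
        group
      calc f * h * f⁻¹ * h⁻¹ = f * h * (f⁻¹ * k) * k⁻¹ * h⁻¹ := by group
        _ = f * h * (k * f⁻¹) * k⁻¹ * h⁻¹ := by rw [h6]
        _ = _ := by group
    rw [h5]
    exact N.mul_mem (hN.conj_mem _ h3 f) (N.inv_mem h3)
  refine le_trans (le_of_eq ?_) h1
  unfold Hs
  rw [MonoidHom.range_eq_map, ← Subgroup.map_commutator, ← commutator_def, hperf]

end Pool.Agent.Q175.HU
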