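import Pool.Agent.Q175.HU.Mn

/-!
Uniformity from simplicity.
-/

set_option autoImplicit false

open Set Filter Topology Function

namespace Pool.Agent.Q175.HU

open Pool.Agent.Y453.HB
open Pool.Agent.Y496.HB (fixOff maps comm)
open Pool.Agent.Q175.HM (dd dd_val dd_mul mem_HamBar)

variable {n : ℕ}

/-- the group is not trivial -/
theorem nontriv (hn : 0 < n) : ∃ g : HamBar n, g ≠ 1 := by
  obtain ⟨R, a, hR, ha, hRa⟩ := Pool.Agent.Y945.HB.rot tri n hn (1 / 4) (1 / 2) (by norm_num)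
    (by norm_num) (by norm_num)
  refine ⟨⟨R, mem_HamBar.2 (ham_mem hR)⟩, fun h => ?_⟩
  have h1 : R 0 = 0 := by
    have h2 : R = 1 := congrArg Subtype.val h
    rw [h2]
    rfl
  rw [hRa 0 (by simp [Q]), sub_zero] at h1
  have h3 : Q (0 : E n) = 0 := by simp [Q]
  rw [h1, h3] at ha
  norm_num at ha

theorem dd_inj {s : ℝ} (hs : 0 < s) (hs1 : s ≤ 1) : Injective (dd n s) := by
  intro φ ψ h
  have h1 := congrArg Subtype.val h
  rw [dd_val hs hs1, dd_val hs hs1] at h1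
  apply Subtype.ext
  exact mul_left_cancel (mul_right_cancel h1)

theorem Hs_nontriv (hn : 0 < n) {s : ℝ} (hs : 0 < s) (hs1 : s ≤ 1) : ∃ g ∈ Hs n s, g ≠ 1 := by
  obtain ⟨g, hg⟩ := nontriv hn
  refine ⟨dd n s g, ⟨g, rfl⟩, fun h => hg (dd_inj hs hs1 ?_)⟩
  rw [h, map_one]

/-- elements of small subgroups are in the Polish group of the closed ball -/
theorem Hs_LG {s : ℝ} (hs : 0 < s) (hs1 : s ≤ 1 / 2) (φ : HamBar n) (h : φ ∈ Hs n s) :
    ∃ p : LG (Bm n 1).1, tt (Bm n 1) p = φ ∧ ∀ x, dist (hm p x) x ≤ 2 * s := by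
  have hfix := Hs_fix hs (by linarith) h
  obtain ⟨ψ, rfl⟩ := h
  obtain ⟨K, hK, hK1, hK2, u, hu1, hu2, hu3⟩ := mem_HamBar.1 ψ.2
  have hU := Pool.Agent.Y309.HB.uc n
  have hsub : ∀ v ∈ fixOff {x : E n | Q x ≤ s ^ 2}, ∀ x, x ∉ (Bm n 1).1 → v x = x := by
    intro v hv x hx
    refine hv x fun hc => hx ?_
    have h1 : Q x ≤ s ^ 2 := hc
    change Q x ≤ 1 - 1 / (((1 : ℕ) : ℝ) + 1)
    push_cast
    nlinarith
  have h1 : pr ((dd n s ψ : HamBar n) : E n ≃ₜ E n) ∈ closure (sm (Bm n 1).1) := by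
    refine of_hamBar (u := fun k => dil s hs * u k * (dil s hs)⁻¹) (Bm n 1).2.1 (hsub _ hfix)
      (fun k => hsub _ (dil_fixOff (fix_out hK1 (hu1 k)) hs))
      (fun k => Pool.Agent.Y419.HB.dil_ham n s hs (by linarith) _ (hu2 k)) ?_
    rw [dd_val hs (by linarith)]
    have h2 := hU.2.2.2.1 s hs
    exact (hU.1 _ _ _ _ (hU.1 _ _ _ _ h2 (uconv_of Pool.Agent.Y309.HB.uc hK hK2 hu3))
      (hU.2.1 _ _ h2)).1
  refine ⟨⟨_, h1⟩, Subtype.ext (pr_inj rfl), fun x => ?_⟩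
  change dist (((dd n s ψ : HamBar n) : E n ≃ₜ E n) x) x ≤ 2 * s
  by_cases hx : Q x ≤ s ^ 2
  · have h2 : Q (((dd n s ψ : HamBar n) : E n ≃ₜ E n) x) ≤ s ^ 2 := maps hfix hx
    rw [dist_eq_norm]
    refine (norm_sub_le _ _).trans ?_
    have h3 := (norm_le _).trans (sqrtQ_le hs.le h2)
    have h4 := (norm_le _).trans (sqrtQ_le hs.le hx)
    linarith
  · rw [hfix x hx, dist_self]
    linarith

theorem CP_pm {g x : HamBar n} {m : ℕ}
    (h : ∃ l : List (HamBar n), l.length ≤ m ∧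
      (∀ y ∈ l, ∃ h, y = h * g * h⁻¹ ∨ y⁻¹ = h * g * h⁻¹) ∧ l.prod = x) :
    CP {g, g⁻¹} m x := by
  obtain ⟨l, h1, h2, h3⟩ := h
  refine ⟨l, h1, fun y hy => ?_, h3⟩
  obtain ⟨h, h4 | h4⟩ := h2 y hy
  · exact ⟨h, g, Or.inl rfl, h4⟩
  · refine ⟨h, g⁻¹, Or.inr rfl, ?_⟩
    rw [← inv_inv y, h4]
    group

theorem CP_nc {g x : HamBar n} (hx : x ∈ Subgroup.normalClosure {g}) :
    ∃ m, CP {g, g⁻¹} m x := by
  obtain ⟨m, hm⟩ := CP_of_closure hx
  refine ⟨m, hm.mono (fun f hf => ?_) le_rfl⟩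
  rcases hf with hf | hf
  · exact Or.inl hf
  · refine Or.inr ?_
    have : f⁻¹ = g := hf
    rw [← this, inv_inv]
    rfl

/-- uniformity from simplicity -/
theorem unif_of (hn : 0 < n)
    (hsimp : ∀ N : Subgroup (HamBar n), N.Normal → N ≠ ⊥ → N = ⊤) :
    ∃ s : ℝ, 0 < s ∧ s < 1 ∧ Subgroup.normalClosure (Hs n s : Set (HamBar n)) = ⊤ ∧
      ∀ g : HamBar n, g ≠ 1 → ∃ m : ℕ, ∀ x ∈ Hs n s, CP {g, g⁻¹} m x := by
  have hnc : ∀ g : HamBar n, g ≠ 1 → Subgroup.normalClosure {g} = ⊤ := by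
    intro g hg
    refine hsimp _ inferInstance fun h => hg ?_
    have h1 : g ∈ Subgroup.normalClosure {g} := Subgroup.subset_normalClosure rfl
    rw [h] at h1
    exact h1
  obtain ⟨g0, hg0⟩ := nontriv (n := n) hn
  obtain ⟨N, ε, hε, h⟩ := conj_auto g0 (fun x => by
    obtain ⟨m, l, -, h2, h3⟩ := CP_nc (show x ∈ Subgroup.normalClosure {g0} by
      rw [hnc g0 hg0]; exact Subgroup.mem_top x)
    refine ⟨l, fun y hy => ?_, h3⟩
    obtain ⟨k, f, hf, rfl⟩ := h2 y hy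
    refine ⟨k, ?_⟩
    rcases hf with rfl | hf
    · exact Or.inl rfl
    · right
      have hf' : f = g0⁻¹ := hf
      rw [hf']
      group) (Bm n 1)
  obtain ⟨s, hs, hs1⟩ : ∃ s : ℝ, 0 < s ∧ s < min (1 / 2) (ε / 2) :=
    exists_between (lt_min (by norm_num) (by linarith))
  have hs2 : s < 1 / 2 := hs1.trans_le (min_le_left _ _)
  have hs3 : s < ε / 2 := hs1.trans_le (min_le_right _ _)
  refine ⟨s, hs, by linarith, ?_, fun g hg => ?_⟩
  · obtain ⟨g, hg, hg1⟩ := Hs_nontriv (n := n) hn hs (by linarith)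
    rw [eq_top_iff, ← hnc g hg1]
    exact Subgroup.normalClosure_mono (singleton_subset_iff.2 hg)
  · obtain ⟨M, hM⟩ := CP_nc (show g0 ∈ Subgroup.normalClosure {g} by
      rw [hnc g hg]; exact Subgroup.mem_top g0)
    refine ⟨N * M, fun x hx => ?_⟩
    obtain ⟨p, hp, hp2⟩ := Hs_LG hs hs2.le x hx
    have h1 := CP_pm (h p fun y => (hp2 y).trans_lt (by linarith))
    rw [hp] at h1
    refine h1.trans fun f hf => ?_
    rcases hf with rfl | hf
    · exact hM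
    · have hf' : f = g0⁻¹ := hf
      rw [hf']
      refine hM.inv fun f hf => ?_
      rcases hf with rfl | hf
      · exact Or.inr rfl
      · have hf' : f = g⁻¹ := hf
        rw [hf', inv_inv]
        exact Or.inl rfl

end Pool.Agent.Q175.HU
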