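import Pool.Agent.Q175.HU.Pol2

/-!
Elements close to the identity; the equivalences.
-/

set_option autoImplicit false

open Set Filter Topology Function

namespace Pool.Agent.Q175.HU

open Pool.Agent.Y453.HB
open Pool.Agent.Y496.HB (fixOff maps comm)
open Pool.Agent.Q175.HM (dd dd_val dd_mul dd_union mem_HamBar)

variable {n : ℕ}

/-- closed balls of radius smaller than one -/
def Kr (n : ℕ) (r : ℝ) (hr : 0 < r) (hr1 : r < 1) : KI n :=
  ⟨{p | Q p ≤ r ^ 2}, Q_compact _, fun p hp => by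
    have h1 : Q p ≤ r ^ 2 := hp
    change Q p < 1
    nlinarith⟩

/-- elements of the small groups are in the Polish groups -/
theorem Hs_Kr {r : ℝ} (hr : 0 < r) (hr1 : r < 1) (φ : HamBar n) (h : φ ∈ Hs n r) :
    ∃ p : LG (Kr n r hr hr1).1, tt (Kr n r hr hr1) p = φ := by
  have hfix := Hs_fix hr hr1.le h
  obtain ⟨ψ, rfl⟩ := h
  obtain ⟨K, hK, hK1, hK2, u, hu1, hu2, hu3⟩ := mem_HamBar.1 ψ.2
  have hU := Pool.Agent.Y309.HB.uc n
  have h1 : pr ((dd n r ψ : HamBar n) : E n ≃ₜ E n) ∈ closure (sm (Kr n r hr hr1).1) := by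
    refine of_hamBar (u := fun k => dil r hr * u k * (dil r hr)⁻¹) (Kr n r hr hr1).2.1
      (fun x hx => hfix x hx) (fun k x hx => dil_fixOff (fix_out hK1 (hu1 k)) hr x hx)
      (fun k => Pool.Agent.Y419.HB.dil_ham n r hr hr1.le _ (hu2 k)) ?_
    rw [dd_val hr hr1.le]
    have h2 := hU.2.2.2.1 r hr
    exact (hU.1 _ _ _ _ (hU.1 _ _ _ _ h2 (uconv_of Pool.Agent.Y309.HB.uc hK hK2 hu3))
      (hU.2.1 _ _ h2)).1
  exact ⟨⟨_, h1⟩, Subtype.ext (pr_inj rfl)⟩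

/-- the elements of the group of the ball of radius `r` that are `ε`-close to the identity -/
def Nr (n : ℕ) (r ε : ℝ) : Set (HamBar n) :=
  {φ | φ ∈ Hs n r ∧ ∀ x, dist ((φ : E n ≃ₜ E n) x) x < ε}

theorem near_of {r : ℝ} (hr : 0 < r) (hr1 : r < 1) {P : HamBar n → Prop}
    (h : ∀ i : KI n, ∃ ε : ℝ, 0 < ε ∧ ∀ p : LG i.1, (∀ x, dist (hm p x) x < ε) → P (tt i p)) :
    ∃ ε : ℝ, 0 < ε ∧ ∀ φ ∈ Nr n r ε, P φ := by
  obtain ⟨ε, hε, h1⟩ := h (Kr n r hr hr1)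
  refine ⟨ε, hε, fun φ hφ => ?_⟩
  obtain ⟨p, rfl⟩ := Hs_Kr hr hr1 φ hφ.1
  exact h1 p hφ.2

theorem dd_comm {s t : ℝ} (hs : 0 < s) (hs1 : s ≤ 1) (ht : 0 < t) (ht1 : t ≤ 1)
    (φ : HamBar n) : dd n s (dd n t φ) = dd n t (dd n s φ) := by
  rw [dd_mul hs hs1 ht ht1, dd_mul ht ht1 hs hs1, mul_comm]

theorem dd_dist {r : ℝ} (hr : 0 < r) (hr1 : r ≤ 1) (φ : HamBar n) (x : E n) :
    dist (((dd n r φ : HamBar n) : E n ≃ₜ E n) x) x =
      r * dist ((φ : E n ≃ₜ E n) (r⁻¹ • x)) (r⁻¹ • x) := by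
  rw [dd_val hr hr1]
  have h1 := dil_dist (n := n) hr (φ : E n ≃ₜ E n) 1 x
  have h2 : (dil r hr * 1 * (dil r hr)⁻¹ : E n ≃ₜ E n) = 1 := by group
  rw [h2] at h1
  exact h1

/-- the trick of Alexander -/
theorem alex {r : ℝ} (hr : 0 < r) (hr1 : r < 1) (P : Subgroup (HamBar n)) {ε : ℝ} (hε : 0 < ε)
    (hP : ∀ φ ∈ Nr n r ε, φ ∈ P) : Hs n r ≤ P := by
  intro φ hφ
  have hfix := Hs_fix hr hr1.le hφ
  have hru : r ^ 2 ≤ 1 := by nlinarith
  have huc : UniformContinuous (φ : E n ≃ₜ E n) :=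
    Pool.Agent.Y309.HB.uc_cpt _ {x | Q x ≤ r ^ 2} (Q_compact _) hfix
  obtain ⟨δ, hδ, hδ2⟩ := Metric.uniformContinuous_iff.1 huc (ε / 2) (by linarith)
  obtain ⟨κ, hκ, hκ2⟩ : ∃ κ : ℝ, 0 < κ ∧ κ < min δ (ε / 2) :=
    exists_between (lt_min hδ (by linarith))
  have hκδ : κ < δ := hκ2.trans_le (min_le_left _ _)
  have hκε : κ < ε / 2 := hκ2.trans_le (min_le_right _ _)
  set l : ℝ := (1 + κ)⁻¹ with hl
  have hl0 : 0 < l := by positivity
  have hl1 : l < 1 := inv_lt_one_of_one_lt₀ (by linarith)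
  have hli : l⁻¹ = 1 + κ := by rw [hl, inv_inv]
  have hnorm : ∀ x : E n, Q x ≤ r ^ 2 → ‖x‖ ≤ 1 := fun x hx =>
    (norm_le x).trans ((sqrtQ_le hr.le hx).trans hr1.le)
  -- the two homeomorphisms are close
  have hclose : ∀ y : E n, dist ((φ : E n ≃ₜ E n) y)
      (((dd n l φ : HamBar n) : E n ≃ₜ E n) y) < ε := by
    intro y
    rw [dd_val hl0 hl1.le, mul_apply, mul_apply, dil_inv_apply, dil_apply]
    by_cases hy : Q y ≤ r ^ 2
    · have h1 : dist y (l⁻¹ • y) < δ := by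
        rw [dist_eq_norm, hli, show y - (1 + κ) • y = (-κ) • y by
          rw [add_smul, one_smul, neg_smul]; abel, norm_smul, norm_neg, Real.norm_eq_abs,
          abs_of_pos hκ]
        have := mul_le_mul_of_nonneg_left (hnorm y hy) hκ.le
        linarith
      have h2 := hδ2 h1
      have h3 : dist ((φ : E n ≃ₜ E n) (l⁻¹ • y)) (l • (φ : E n ≃ₜ E n) (l⁻¹ • y)) ≤ κ := by
        set z := (φ : E n ≃ₜ E n) (l⁻¹ • y) with hz
        have h4 : ‖z‖ ≤ 1 + κ := by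
          by_cases hy' : Q (l⁻¹ • y) ≤ r ^ 2
          · have := hnorm z (maps hfix hy')
            linarith
          · rw [hz, hfix _ hy', hli, norm_smul, Real.norm_eq_abs, abs_of_pos (by linarith)]
            have := mul_le_mul_of_nonneg_left (hnorm y hy) (show (0 : ℝ) ≤ 1 + κ by linarith)
            linarith
        rw [dist_eq_norm, show z - l • z = (1 - l) • z by rw [sub_smul, one_smul], norm_smul,
          Real.norm_eq_abs, abs_of_pos (by linarith)]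
        have h5 : (1 - l) * (1 + κ) = κ := by
          rw [sub_mul, one_mul, hl, inv_mul_cancel₀ (by linarith)]
          ring
        calc (1 - l) * ‖z‖ ≤ (1 - l) * (1 + κ) :=
              mul_le_mul_of_nonneg_left h4 (by linarith)
          _ = κ := h5
      calc dist ((φ : E n ≃ₜ E n) y) (l • (φ : E n ≃ₜ E n) (l⁻¹ • y))
          ≤ dist ((φ : E n ≃ₜ E n) y) ((φ : E n ≃ₜ E n) (l⁻¹ • y)) +
            dist ((φ : E n ≃ₜ E n) (l⁻¹ • y)) (l • (φ : E n ≃ₜ E n) (l⁻¹ • y)) :=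
            dist_triangle _ _ _
        _ < ε := by linarith
    · have hy' : ¬ Q (l⁻¹ • y) ≤ r ^ 2 := by
        rw [Q_smul, hli]
        have h1 : Q y ≤ (1 + κ) ^ 2 * Q y := by
          have h2 : (1 : ℝ) ≤ (1 + κ) ^ 2 := one_le_pow₀ (by linarith)
          exact le_mul_of_one_le_left (Q_nonneg y) h2
        intro hc
        exact hy (h1.trans hc)
      rw [hfix y hy, hfix _ hy', smul_smul, mul_inv_cancel₀ hl0.ne', one_smul, dist_self]
      exact hε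
  have hddl : ∀ (k : ℕ) (ψ : HamBar n), ψ ∈ Hs n r → dd n (l ^ k) ψ ∈ Hs n r := by
    rintro k _ ⟨ψ, rfl⟩
    exact ⟨dd n (l ^ k) ψ, dd_comm hr hr1.le (pow_pos hl0 k) (pow_le_one₀ hl0.le hl1.le) ψ⟩
  have hddl1 : dd n l φ ∈ Hs n r := by
    have := hddl 1 φ hφ
    rwa [pow_one] at this
  set g : HamBar n := φ * (dd n l φ)⁻¹ with hg
  have hgr : g ∈ Hs n r := Subgroup.mul_mem _ hφ (Subgroup.inv_mem _ hddl1)
  have hgd : ∀ x : E n, dist ((g : E n ≃ₜ E n) x) x < ε := by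
    intro x
    have h1 := hclose ((((dd n l φ : HamBar n) : E n ≃ₜ E n)⁻¹ : E n ≃ₜ E n) x)
    rw [apply_inv_self] at h1
    exact h1
  have hgk : ∀ k : ℕ, dd n (l ^ k) g ∈ P := by
    intro k
    refine hP _ ⟨hddl k g hgr, fun x => ?_⟩
    rw [dd_dist (pow_pos hl0 k) (pow_le_one₀ hl0.le hl1.le)]
    exact (mul_le_of_le_one_left dist_nonneg (pow_le_one₀ hl0.le hl1.le)).trans_lt (hgd _)
  have hstep : ∀ k : ℕ, dd n (l ^ (k + 1)) φ ∈ P → dd n (l ^ k) φ ∈ P := by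
    intro k hk
    have h1 : dd n (l ^ k) φ = dd n (l ^ k) g * dd n (l ^ (k + 1)) φ := by
      rw [hg, map_mul, map_inv, pow_succ,
        dd_mul (pow_pos hl0 k) (pow_le_one₀ hl0.le hl1.le) hl0 hl1.le, inv_mul_cancel_right]
    rw [h1]
    exact P.mul_mem (hgk k) hk
  have hall : ∀ k : ℕ, dd n (l ^ k) φ ∈ P → φ ∈ P := by
    intro k
    induction k with
    | zero =>
      intro h
      have h1 : dd n (l ^ 0) φ = φ := by
        rw [pow_zero]
        exact Pool.Agent.Q175.HM.dd_eq one_pos le_rfl fun x => by rw [one_smul, one_smul]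
      rwa [h1] at h
    | succ k ih => exact fun h => ih (hstep k h)
  obtain ⟨k, hk⟩ := exists_pow_lt_of_lt_one (show 0 < ε / 2 by linarith) hl1
  refine hall k (hP _ ⟨hddl k φ hφ, fun x => ?_⟩)
  rw [dd_dist (pow_pos hl0 k) (pow_le_one₀ hl0.le hl1.le)]
  have h1 : dist ((φ : E n ≃ₜ E n) ((l ^ k)⁻¹ • x)) ((l ^ k)⁻¹ • x) ≤ 2 := by
    by_cases hx : Q ((l ^ k)⁻¹ • x) ≤ r ^ 2
    · rw [dist_eq_norm]
      refine (norm_sub_le _ _).trans ?_
      have h3 := hnorm _ (maps hfix hx)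
      have h4 := hnorm _ hx
      linarith
    · rw [hfix _ hx, dist_self]
      norm_num
  have h2 := mul_le_mul_of_nonneg_left h1 (pow_pos hl0 k).le
  linarith

/-- a subgroup containing the small elements is everything -/
theorem top_of_near (P : Subgroup (HamBar n))
    (h : ∀ r : ℝ, 0 < r → r < 1 → ∃ ε : ℝ, 0 < ε ∧ ∀ φ ∈ Nr n r ε, φ ∈ P) : P = ⊤ := by
  rw [eq_top_iff]
  intro φ _
  obtain ⟨t, ht, ht1, ψ, rfl⟩ := dd_union φ
  obtain ⟨ε, hε, h1⟩ := h t ht ht1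
  exact alex ht ht1 P hε h1 ⟨ψ, rfl⟩

/-- fragmentation at one scale implies fragmentation at all scales -/
theorem FR_top {t : ℝ} (ht : 0 < t) (ht1 : t < 1)
    (h : Subgroup.normalClosure (Hs n t : Set (HamBar n)) = ⊤) (N : Subgroup (HamBar n))
    [hN : N.Normal] {q : ℝ} (hq : 0 < q) (hq1 : q ≤ 1) (hNq : Hs n q ≤ N) : N = ⊤ := by
  have hpow : ∀ k : ℕ, 0 < t ^ k ∧ t ^ k ≤ 1 := fun k => ⟨pow_pos ht k, pow_le_one₀ ht.le ht1.le⟩
  have hstep : ∀ k : ℕ, Hs n (t ^ (k + 1)) ≤ N → Hs n (t ^ k) ≤ N := by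
    intro k hk
    have h1 : Subgroup.normalClosure (Hs n t : Set (HamBar n)) ≤ N.comap (dd n (t ^ k)) := by
      refine Subgroup.normalClosure_le_normal ?_
      rintro _ ⟨ψ, rfl⟩
      change dd n (t ^ k) (dd n t ψ) ∈ N
      rw [dd_mul (hpow k).1 (hpow k).2 ht ht1.le, ← pow_succ]
      exact hk ⟨ψ, rfl⟩
    rw [h] at h1
    rintro _ ⟨φ, rfl⟩
    exact h1 (Subgroup.mem_top φ)
  have hall : ∀ k : ℕ, Hs n (t ^ k) ≤ N → (⊤ : Subgroup (HamBar n)) ≤ N := by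
    intro k
    induction k with
    | zero =>
      intro h φ _
      refine h ⟨φ, ?_⟩
      rw [pow_zero]
      exact Pool.Agent.Q175.HM.dd_eq one_pos le_rfl fun x => by rw [one_smul, one_smul]
    | succ k ih => exact fun h => ih (hstep k h)
  obtain ⟨k, hk⟩ := exists_pow_lt_of_lt_one hq ht1
  exact top_le_iff.1 (hall k ((Hs_mono (hpow k).1 hk.le hq1).trans hNq))

/-- simplicity from perfectness and fragmentation -/
theorem simple_of_perfect {t : ℝ} (ht : 0 < t) (ht1 : t < 1)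
    (h : Subgroup.normalClosure (Hs n t : Set (HamBar n)) = ⊤)
    (hperf : commutator (HamBar n) = ⊤) (N : Subgroup (HamBar n)) [hN : N.Normal]
    (hne : N ≠ ⊥) : N = ⊤ := by
  obtain ⟨a, ha⟩ := Subgroup.ne_bot_iff_exists_ne_one.1 hne
  obtain ⟨g, hg, hg1⟩ : ∃ g : HamBar n, g ∈ N ∧ g ≠ 1 :=
    ⟨a.1, a.2, fun h => ha (Subtype.ext h)⟩
  obtain ⟨R, q, hq, hq1, hcomm⟩ := displace hg1
  refine FR_top ht ht1 h N hq hq1 ?_
  have hg' : R⁻¹ * g * R ∈ N := by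
    have := hN.conj_mem g hg R⁻¹
    rwa [inv_inv] at this
  have h1 : ⁅Hs n q, Hs n q⁆ ≤ N := by
    rw [Subgroup.commutator_le]
    intro f hf h hh
    have h2 := hcomm f hf h⁻¹ ((Hs n q).inv_mem hh)
    set k := (R⁻¹ * g * R) * h⁻¹ * (R⁻¹ * g * R)⁻¹ with hk
    have h3 : h * k ∈ N := by
      rw [hk]
      have h4 := N.mul_mem (hN.conj_mem _ hg' h) (N.inv_mem hg')
      rwa [show h * (R⁻¹ * g * R) * h⁻¹ * (R⁻¹ * g * R)⁻¹ =
        h * ((R⁻¹ * g * R) * h⁻¹ * (R⁻¹ * g * R)⁻¹) by group] at h4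
    change f * h * f⁻¹ * h⁻¹ ∈ N
    have h5 : f * h * f⁻¹ * h⁻¹ = (f * (h * k) * f⁻¹) * (h * k)⁻¹ := by
      have h6 : k * f⁻¹ = f⁻¹ * k := by
        rw [← mul_left_cancel_iff (a := f), ← mul_assoc, h2]
        group
      calc f * h * f⁻¹ * h⁻¹ = f * h * (f⁻¹ * k) * k⁻¹ * h⁻¹ := by group
        _ = f * h * (k * f⁻¹) * k⁻¹ * h⁻¹ := by rw [h6]
        _ = _ := by group
    rw [h5]
    exact N.mul_mem (hN.conj_mem _ h3 f) (N.inv_mem h3)
  refine le_trans (le_of_eq ?_) h1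
  unfold Hs
  rw [MonoidHom.range_eq_map, ← Subgroup.map_commutator, ← commutator_def, hperf]

/-- uniformity from simplicity -/
theorem unif_near (hn : 0 < n)
    (hsimp : ∀ N : Subgroup (HamBar n), N.Normal → N ≠ ⊥ → N = ⊤) (r : ℝ) (hr : 0 < r)
    (hr1 : r < 1) : ∃ ε : ℝ, 0 < ε ∧ ∀ g : HamBar n, g ≠ 1 → ∃ m : ℕ, ∀ x ∈ Nr n r ε,
      CP {g, g⁻¹} m x := by
  have hnc : ∀ g : HamBar n, g ≠ 1 → Subgroup.normalClosure {g} = ⊤ := by
    intro g hg
    refine hsimp _ inferInstance fun h => hg ?_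
    have h1 : g ∈ Subgroup.normalClosure {g} := Subgroup.subset_normalClosure rfl
    rw [h] at h1
    exact h1
  obtain ⟨g0, hg0⟩ := nontriv (n := n) hn
  obtain ⟨N, ε, hε, h⟩ := conj_auto g0 (fun x => by
    obtain ⟨m, l, -, h2, h3⟩ := CP_nc (show x ∈ Subgroup.normalClosure {g0} by
      rw [hnc g0 hg0]; exact Subgroup.mem_top x)
    refine ⟨l, fun y hy => ?_, h3⟩
    obtain ⟨k, f, hf, rfl⟩ := h2 y hy
    refine ⟨k, ?_⟩
    rcases hf with rfl | hf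
    · exact Or.inl rfl
    · right
      have hf' : f = g0⁻¹ := hf
      rw [hf']
      group) (Kr n r hr hr1)
  refine ⟨ε, hε, fun g hg => ?_⟩
  obtain ⟨M, hM⟩ := CP_nc (show g0 ∈ Subgroup.normalClosure {g} by
    rw [hnc g hg]; exact Subgroup.mem_top g0)
  refine ⟨N * M, fun x hx => ?_⟩
  obtain ⟨p, rfl⟩ := Hs_Kr hr hr1 x hx.1
  have h1 := CP_pm (h p hx.2)
  refine h1.trans fun f hf => ?_
  rcases hf with rfl | hf
  · exact hM
  · have hf' : f = g0⁻¹ := hf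
    rw [hf']
    refine hM.inv fun f hf => ?_
    rcases hf with rfl | hf
    · exact Or.inr rfl
    · have hf' : f = g⁻¹ := hf
      rw [hf', inv_inv]
      exact Or.inl rfl

/-- small balls -/
theorem Hs_near {s r ε : ℝ} (hs : 0 < s) (hsr : s ≤ r) (hr : r < 1) (hsε : 2 * s < ε) :
    (Hs n s : Set (HamBar n)) ⊆ Nr n r ε := by
  intro φ hφ
  have hfix := Hs_fix hs (by linarith) hφ
  refine ⟨Hs_mono hs hsr hr.le hφ, fun x => ?_⟩
  by_cases hx : Q x ≤ s ^ 2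
  · have h2 : Q ((φ : E n ≃ₜ E n) x) ≤ s ^ 2 := maps hfix hx
    rw [dist_eq_norm]
    refine (norm_sub_le _ _).trans_lt ?_
    have h3 := (norm_le _).trans (sqrtQ_le hs.le h2)
    have h4 := (norm_le _).trans (sqrtQ_le hs.le hx)
    linarith
  · rw [hfix x hx, dist_self]
    linarith

end Pool.Agent.Q175.HU
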