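import Pool.Agent.Q175.HU.Mn3

/-!
Simplicity, perfectness and fragmentation: the equivalences.
-/

set_option autoImplicit false

open Set Filter Topology Function

namespace Pool.Agent.Q175.HU

open Pool.Agent.Y453.HB
open Pool.Agent.Y496.HB (fixOff maps comm)
open Pool.Agent.Q175.HM (dd dd_val dd_mul dd_union mem_HamBar)

variable {n : ℕ}

/-- the elements which are dilates -/
def IB (S : Subgroup (E n ≃ₜ E n)) (s : ℝ) : Set S :=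
  {φ' | ∃ φ : S, ∀ x : E n, (φ' : E n ≃ₜ E n) (s • x) = s • (φ : E n ≃ₜ E n) x}

/-- dilates close to the identity -/
def NB (S : Subgroup (E n ≃ₜ E n)) (r ε : ℝ) : Set S :=
  {φ | φ ∈ IB S r ∧ ∀ x : E n, dist ((φ : E n ≃ₜ E n) x) x < ε}

/-- fragmentation -/
def FRG (S : Subgroup (E n ≃ₜ E n)) : Prop :=
  ∃ t : ℝ, 0 < t ∧ t < 1 ∧ ∀ φ : S, ∃ m, CP (IB S t) m φ

/-- conjugation invariant length functions -/
structure Len {G : Type} [Group G] (ℓ : G → ℝ) : Prop where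
  nonneg : ∀ x, 0 ≤ ℓ x
  inv : ∀ x, ℓ x⁻¹ = ℓ x
  mul : ∀ x y, ℓ (x * y) ≤ ℓ x + ℓ y
  conj : ∀ x y, ℓ (y * x * y⁻¹) = ℓ x

/-- the theorem for a subgroup -/
def STM (S : Subgroup (E n ≃ₜ E n)) : Prop :=
  [IsSimpleGroup S,
    FRG S ∧ commutator S = ⊤,
    FRG S ∧ ∃ s : ℝ, 0 < s ∧ s < 1 ∧ ∃ m : ℕ, ∀ φ ∈ IB S s, CM m φ,
    FRG S ∧ ∃ s t : ℝ, 0 < t ∧ t < s ∧ s < 1 ∧ ∃ m : ℕ, ∀ φ ∈ IB S s, CP (IB S t) m φ,
    ∀ r : ℝ, 0 < r → r < 1 → ∃ ε : ℝ, 0 < ε ∧ ∀ t : ℝ, 0 < t → t < 1 →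
      ∃ m : ℕ, ∀ φ ∈ NB S r ε, CP (IB S t) m φ,
    ∀ r : ℝ, 0 < r → r < 1 → ∃ ε : ℝ, 0 < ε ∧ ∀ g : S, g ≠ 1 →
      ∃ m : ℕ, ∀ φ ∈ NB S r ε, CP {g, g⁻¹} m φ,
    FRG S ∧ ∃ s : ℝ, 0 < s ∧ s < 1 ∧ ∀ ℓ : S → ℝ, Len ℓ → ∃ C : ℝ, ∀ φ ∈ IB S s, ℓ φ ≤ C].TFAE ∧
  (FRG S ↔ ∀ t : ℝ, 0 < t → t < 1 → ∀ r : ℝ, 0 < r → r < 1 → ∃ ε : ℝ, 0 < ε ∧
    ∃ m : ℕ, ∀ φ ∈ NB S r ε, CP (IB S t) m φ) ∧
  (commutator S = ⊤ ↔ ∀ r : ℝ, 0 < r → r < 1 → ∃ ε : ℝ, 0 < ε ∧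
    ∃ m : ℕ, ∀ φ ∈ NB S r ε, CM m φ)

theorem IB_eq {s : ℝ} (hs : 0 < s) (hs1 : s ≤ 1) :
    IB (HamBar n) s = (Hs n s : Set (HamBar n)) := by
  ext φ'
  constructor
  · rintro ⟨φ, hφ⟩
    exact ⟨φ, Pool.Agent.Q175.HM.dd_eq hs hs1 hφ⟩
  · rintro ⟨φ, rfl⟩
    exact ⟨φ, Pool.Agent.Q175.HM.dd_isDilate hs hs1 φ⟩

theorem NB_eq {r : ℝ} (hr : 0 < r) (hr1 : r ≤ 1) (ε : ℝ) : NB (HamBar n) r ε = Nr n r ε := by
  unfold NB Nr
  rw [IB_eq hr hr1]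
  rfl

theorem nc_iff {t : ℝ} : (∀ φ : HamBar n, ∃ m, CP (Hs n t : Set (HamBar n)) m φ) ↔
    Subgroup.normalClosure (Hs n t : Set (HamBar n)) = ⊤ := by
  constructor
  · intro h
    rw [eq_top_iff]
    intro φ _
    obtain ⟨m, hm⟩ := h φ
    exact hm.mem Subgroup.subset_normalClosure
  · intro h φ
    obtain ⟨m, hm⟩ := CP_of_closure (show φ ∈ Subgroup.normalClosure (Hs n t : Set (HamBar n)) by
      rw [h]; exact Subgroup.mem_top φ)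
    refine ⟨m, hm.mono (fun f hf => ?_) le_rfl⟩
    rcases hf with hf | hf
    · exact hf
    · have := (Hs n t).inv_mem hf
      rwa [inv_inv] at this

theorem frg_iff : FRG (HamBar n) ↔
    ∃ t : ℝ, 0 < t ∧ t < 1 ∧ Subgroup.normalClosure (Hs n t : Set (HamBar n)) = ⊤ := by
  unfold FRG
  refine exists_congr fun t => ?_
  constructor
  · rintro ⟨ht, ht1, h⟩
    rw [IB_eq ht ht1.le] at h
    exact ⟨ht, ht1, nc_iff.1 h⟩
  · rintro ⟨ht, ht1, h⟩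
    refine ⟨ht, ht1, ?_⟩
    rw [IB_eq ht ht1.le]
    exact nc_iff.2 h

theorem frg_all (h : FRG (HamBar n)) {t : ℝ} (ht : 0 < t) (ht1 : t < 1) :
    Subgroup.normalClosure (Hs n t : Set (HamBar n)) = ⊤ := by
  obtain ⟨t0, h0, h01, h1⟩ := frg_iff.1 h
  exact FR_top h0 h01 h1 _ ht ht1.le Subgroup.subset_normalClosure

theorem exists_small {ε : ℝ} (hε : 0 < ε) :
    ∃ s : ℝ, 0 < s ∧ s < 1 / 2 ∧ 2 * s < ε := by
  obtain ⟨s, hs, hs1⟩ : ∃ s : ℝ, 0 < s ∧ s < min (1 / 2) (ε / 2) :=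
    exists_between (lt_min (by norm_num) (by linarith))
  have h1 := hs1.trans_le (min_le_right _ _)
  exact ⟨s, hs, hs1.trans_le (min_le_left _ _), by linarith⟩

theorem frag_iff : FRG (HamBar n) ↔ ∀ t : ℝ, 0 < t → t < 1 → ∀ r : ℝ, 0 < r → r < 1 →
    ∃ ε : ℝ, 0 < ε ∧ ∃ m : ℕ, ∀ φ ∈ NB (HamBar n) r ε, CP (IB (HamBar n) t) m φ := by
  constructor
  · intro h t ht ht1 r hr hr1
    rw [IB_eq ht ht1.le]
    obtain ⟨N, ε, hε, h1⟩ := frag_auto ht ht1.le (frg_all h ht ht1) (Kr n r hr hr1)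
    refine ⟨ε, hε, N, fun φ hφ => ?_⟩
    rw [NB_eq hr hr1.le] at hφ
    obtain ⟨p, rfl⟩ := Hs_Kr hr hr1 φ hφ.1
    exact h1 p hφ.2
  · intro h
    refine frg_iff.2 ⟨1 / 2, by norm_num, by norm_num, top_of_near _ fun r hr hr1 => ?_⟩
    obtain ⟨ε, hε, m, h1⟩ := h (1 / 2) (by norm_num) (by norm_num) r hr hr1
    rw [NB_eq hr hr1.le, IB_eq (by norm_num) (by norm_num)] at h1
    exact ⟨ε, hε, fun φ hφ => (h1 φ hφ).mem Subgroup.subset_normalClosure⟩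

theorem perf_iff : commutator (HamBar n) = ⊤ ↔ ∀ r : ℝ, 0 < r → r < 1 →
    ∃ ε : ℝ, 0 < ε ∧ ∃ m : ℕ, ∀ φ ∈ NB (HamBar n) r ε, CM m φ := by
  constructor
  · intro h r hr hr1
    obtain ⟨N, ε, hε, h1⟩ := comm_auto h (Kr n r hr hr1)
    refine ⟨ε, hε, N, fun φ hφ => ?_⟩
    rw [NB_eq hr hr1.le] at hφ
    obtain ⟨p, rfl⟩ := Hs_Kr hr hr1 φ hφ.1
    exact h1 p hφ.2
  · intro h
    refine top_of_near _ fun r hr hr1 => ?_
    obtain ⟨ε, hε, m, h1⟩ := h r hr hr1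
    rw [NB_eq hr hr1.le] at h1
    exact ⟨ε, hε, fun φ hφ => (h1 φ hφ).mem⟩

/-- the length function of a normally generating subgroup -/
theorem len_frag {t : ℝ} (h : ∀ φ : HamBar n, ∃ m, CP (Hs n t : Set (HamBar n)) m φ) :
    ∃ ℓ : HamBar n → ℝ, Len ℓ ∧ ∀ φ, ∀ m : ℕ, ℓ φ ≤ m → CP (Hs n t : Set (HamBar n)) m φ := by
  classical
  let f : HamBar n → ℕ := fun φ => Nat.find (h φ)
  have hf : ∀ φ, CP (Hs n t : Set (HamBar n)) (f φ) φ := fun φ => Nat.find_spec (h φ)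
  have hmin : ∀ φ m, CP (Hs n t : Set (HamBar n)) m φ → f φ ≤ m := fun φ m hm =>
    Nat.find_min' (h φ) hm
  have hinv : ∀ φ, f φ⁻¹ ≤ f φ := fun φ =>
    hmin _ _ ((hf φ).inv fun x hx => (Hs n t).inv_mem hx)
  have hconj : ∀ φ ψ, f (ψ * φ * ψ⁻¹) ≤ f φ := fun φ ψ => hmin _ _ ((hf φ).conj ψ)
  refine ⟨fun φ => (f φ : ℝ), ⟨fun _ => Nat.cast_nonneg _, fun φ => ?_, fun φ ψ => ?_,
    fun φ ψ => ?_⟩, fun φ m hm => (hf φ).mono (fun _ h => h) (Nat.cast_le.1 hm)⟩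
  · have h1 := hinv φ
    have h2 := hinv φ⁻¹
    rw [inv_inv] at h2
    exact congrArg _ (le_antisymm h1 h2)
  · exact_mod_cast hmin _ _ ((hf φ).mul (hf ψ))
  · have h1 := hconj φ ψ
    have h2 := hconj (ψ * φ * ψ⁻¹) ψ⁻¹
    rw [show ψ⁻¹ * (ψ * φ * ψ⁻¹) * ψ⁻¹⁻¹ = φ by group] at h2
    exact congrArg _ (le_antisymm h1 h2)

theorem len_le {G : Type} [Group G] {ℓ : G → ℝ} (hℓ : Len ℓ) {g x : G} {m : ℕ}
    (h : CP {g, g⁻¹} m x) : ℓ x ≤ ℓ 1 + m * ℓ g := by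
  obtain ⟨l, h1, h2, rfl⟩ := h
  have h3 : ℓ l.prod ≤ ℓ 1 + l.length * ℓ g := by
    clear h1
    induction l with
    | nil => simp
    | cons y l ih =>
      have h4 := ih fun z hz => h2 z (List.mem_cons_of_mem _ hz)
      obtain ⟨k, f, hf, hy⟩ := h2 y List.mem_cons_self
      have h5 : ℓ y = ℓ g := by
        rw [hy, hℓ.conj]
        rcases hf with rfl | hf
        · rfl
        · have hf' : f = g⁻¹ := hf
          rw [hf', hℓ.inv]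
      rw [List.prod_cons, List.length_cons]
      have h6 := hℓ.mul y l.prod
      push_cast
      linarith
  have h4 : (l.length : ℝ) ≤ m := Nat.cast_le.2 h1
  have h5 := mul_le_mul_of_nonneg_right h4 (hℓ.nonneg g)
  linarith

/-- the equivalences -/
theorem stm (hn : 0 < n) : STM (HamBar n) := by
  refine ⟨?_, frag_iff, perf_iff⟩
  tfae_have 1 → 6 := by
    intro h r hr hr1
    obtain ⟨ε, hε, h1⟩ := unif_near hn
      (fun N hN hne => (hN.eq_bot_or_eq_top).resolve_left hne) r hr hr1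
    refine ⟨ε, hε, fun g hg => ?_⟩
    rw [NB_eq hr hr1.le]
    exact h1 g hg
  tfae_have 6 → 5 := by
    intro h r hr hr1
    obtain ⟨ε, hε, h1⟩ := h r hr hr1
    refine ⟨ε, hε, fun t ht ht1 => ?_⟩
    obtain ⟨g, hg, hg1⟩ := Hs_nontriv (n := n) hn ht ht1.le
    obtain ⟨m, hm⟩ := h1 g hg1
    refine ⟨m, fun φ hφ => ?_⟩
    rw [IB_eq ht ht1.le]
    refine (hm φ hφ).mono ?_ le_rfl
    rintro f (rfl | hf)
    · exact hg
    · have hf' : f = g⁻¹ := hf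
      rw [hf']
      exact (Hs n t).inv_mem hg
  tfae_have 5 → 4 := by
    intro h
    have hfr : FRG (HamBar n) := by
      refine frag_iff.2 fun t ht ht1 r hr hr1 => ?_
      obtain ⟨ε, hε, h1⟩ := h r hr hr1
      exact ⟨ε, hε, h1 t ht ht1⟩
    refine ⟨hfr, ?_⟩
    obtain ⟨ε, hε, h1⟩ := h (1 / 2) (by norm_num) (by norm_num)
    obtain ⟨s, hs, hs1, hs2⟩ := exists_small hε
    obtain ⟨m, hm⟩ := h1 (s / 2) (by linarith) (by linarith)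
    refine ⟨s, s / 2, by linarith, by linarith, by linarith, m, fun φ hφ => hm φ ?_⟩
    rw [IB_eq hs (by linarith)] at hφ
    rw [NB_eq (by norm_num) (by norm_num)]
    exact Hs_near hs hs1.le (by norm_num) hs2 hφ
  tfae_have 4 → 2 := by
    rintro ⟨hfr, s, t, ht, hts, hs1, m, h⟩
    refine ⟨hfr, perfect_of hn ht hts hs1 (frg_all hfr (ht.trans hts) hs1) (m := m) ?_⟩
    rw [IB_eq (ht.trans hts) hs1.le, IB_eq ht (hts.trans hs1).le] at h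
    exact h
  tfae_have 2 → 1 := by
    rintro ⟨hfr, hperf⟩
    obtain ⟨t, ht, ht1, h⟩ := frg_iff.1 hfr
    obtain ⟨g, hg⟩ := nontriv (n := n) hn
    have : Nontrivial (HamBar n) := ⟨g, 1, hg⟩
    exact ⟨fun N hN => by
      by_cases hne : N = ⊥
      · exact Or.inl hne
      · exact Or.inr (simple_of_perfect ht ht1 h hperf N hne)⟩
  tfae_have 2 → 3 := by
    rintro ⟨hfr, hperf⟩
    refine ⟨hfr, ?_⟩
    obtain ⟨ε, hε, m, h1⟩ := perf_iff.1 hperf (1 / 2) (by norm_num) (by norm_num)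
    obtain ⟨s, hs, hs1, hs2⟩ := exists_small hε
    refine ⟨s, hs, by linarith, m, fun φ hφ => h1 φ ?_⟩
    rw [IB_eq hs (by linarith)] at hφ
    rw [NB_eq (by norm_num) (by norm_num)]
    exact Hs_near hs hs1.le (by norm_num) hs2 hφ
  tfae_have 3 → 2 := by
    rintro ⟨hfr, s, hs, hs1, m, h⟩
    refine ⟨hfr, ?_⟩
    obtain ⟨t, ht, ht1, h1⟩ := frg_iff.1 hfr
    refine FR_top ht ht1 h1 _ hs hs1.le fun φ hφ => ?_
    rw [IB_eq hs hs1.le] at h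
    exact (h φ hφ).mem
  tfae_have 4 → 7 := by
    intro h4
    refine ⟨h4.1, ?_⟩
    have h6 := tfae_1_to_6 (tfae_2_to_1 (tfae_4_to_2 h4))
    obtain ⟨ε, hε, h1⟩ := h6 (1 / 2) (by norm_num) (by norm_num)
    obtain ⟨s, hs, hs1, hs2⟩ := exists_small hε
    obtain ⟨g, hg⟩ := nontriv (n := n) hn
    obtain ⟨m, hm⟩ := h1 g hg
    refine ⟨s, hs, by linarith, fun ℓ hℓ => ⟨ℓ 1 + m * ℓ g, fun φ hφ => len_le hℓ (hm φ ?_)⟩⟩
    rw [IB_eq hs (by linarith)] at hφ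
    rw [NB_eq (by norm_num) (by norm_num)]
    exact Hs_near hs hs1.le (by norm_num) hs2 hφ
  tfae_have 7 → 4 := by
    rintro ⟨hfr, s, hs, hs1, h⟩
    refine ⟨hfr, s, s / 2, by linarith, by linarith, hs1, ?_⟩
    obtain ⟨ℓ, hℓ, h1⟩ := len_frag
      (nc_iff.2 (frg_all hfr (show 0 < s / 2 by linarith) (by linarith)))
    obtain ⟨C, hC⟩ := h ℓ hℓ
    obtain ⟨m, hm⟩ := exists_nat_ge C
    refine ⟨m, fun φ hφ => ?_⟩
    rw [IB_eq (by linarith) (by linarith)]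
    exact h1 φ m ((hC φ hφ).trans hm)
  tfae_finish

end Pool.Agent.Q175.HU
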