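import Pool.Agent.Q175.HU.Mn2

/-!
Automatic uniformity for conjugates of elements of small balls, and for commutators.
-/

set_option autoImplicit false

open Set Filter Topology MeasureTheory Function

namespace Pool.Agent.Q175.HU

open Pool.Agent.Y453.HB
open Pool.Agent.Y496.HB (fixOff maps comm)
open Pool.Agent.Q175.HM (dd dd_val dd_mul mem_HamBar)

variable {n : ℕ}

/-- the uniform version of generation by a countable family of analytic sets -/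
theorem auto_ham (V : ℕ → Set (HamBar n)) (hV : ∀ m, Cl (fun i : KI n => LG i.1) tt (V m))
    (hgen : ∀ x : HamBar n, ∃ l : List (HamBar n), (∀ y ∈ l, ∃ m, y ∈ V m ∨ y⁻¹ ∈ V m) ∧
      l.prod = x) (i : KI n) :
    ∃ N : ℕ, ∃ ε : ℝ, 0 < ε ∧ ∀ p : LG i.1, (∀ x, dist (hm p x) x < ε) →
      ∃ l : List (HamBar n), l.length ≤ N ∧ (∀ y ∈ l, ∃ m, y ∈ V m ∨ y⁻¹ ∈ V m) ∧
        l.prod = tt i p := by
  obtain ⟨N, hN⟩ := auto (ι := KI n) (L := fun i : KI n => LG i.1) (t := tt) ci tt_ci ci_cont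
    tt_inj V hV hgen i
  obtain ⟨ε, hε, h⟩ := nhds_one hN
  exact ⟨N, ε, hε, fun p hp => h p hp⟩

/-- the dilation -/
noncomputable def dc (n : ℕ) (t : ℝ) (ht : 0 < t) : CE n := ⟨dil t ht, (dil t ht).continuous⟩

/-- the inverse of the dilation -/
noncomputable def dc' (n : ℕ) (t : ℝ) (ht : 0 < t) : CE n :=
  ⟨(dil t ht).symm, (dil t ht).symm.continuous⟩

/-- conjugation of pairs by the dilation -/
noncomputable def dz (t : ℝ) (ht : 0 < t) (p : CE n × CE n) : CE n × CE n :=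
  ((dc n t ht).comp (p.1.comp (dc' n t ht)), (dc n t ht).comp (p.2.comp (dc' n t ht)))

theorem dz_cont (t : ℝ) (ht : 0 < t) : Continuous (dz (n := n) t ht) := by
  have h1 : Continuous fun f : CE n => (dc n t ht).comp (f.comp (dc' n t ht)) :=
    (ContinuousMap.continuous_postcomp _).comp (ContinuousMap.continuous_precomp _)
  exact (h1.comp continuous_fst).prodMk (h1.comp continuous_snd)

theorem dz_pr (t : ℝ) (ht : 0 < t) (u : E n ≃ₜ E n) :
    dz t ht (pr u) = pr (dil t ht * u * (dil t ht)⁻¹) := rfl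

theorem dz_sm {t : ℝ} (ht : 0 < t) (ht1 : t ≤ 1) (m : ℕ) {p : CE n × CE n}
    (hp : p ∈ sm (Bm n m).1) : dz t ht p ∈ sm (Bm n m).1 := by
  obtain ⟨u, hu1, hu2, rfl⟩ := hp
  refine ⟨_, Pool.Agent.Y419.HB.dil_ham n t ht ht1 u hu1, fun x hx => ?_, rfl⟩
  rw [mul_apply, mul_apply, dil_inv_apply, dil_apply, hu2, smul_smul, mul_inv_cancel₀ ht.ne',
    one_smul]
  intro hc
  apply hx
  have h1 : Q (t⁻¹ • x) ≤ 1 - 1 / ((m : ℝ) + 1) := hc
  change Q x ≤ 1 - 1 / ((m : ℝ) + 1)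
  rw [Q_smul] at h1
  refine le_trans ?_ h1
  have h2 : 1 ≤ t⁻¹ ^ 2 := one_le_pow₀ ((one_le_inv₀ ht).2 ht1)
  nlinarith [Q_nonneg x]

/-- the dilation on the Polish groups -/
noncomputable def dl {t : ℝ} (ht : 0 < t) (ht1 : t ≤ 1) (m : ℕ) (p : LG (Bm n m).1) :
    LG (Bm n m).1 :=
  ⟨dz t ht p.1, map_mem_closure (dz_cont t ht) p.2 fun _ h => dz_sm ht ht1 m h⟩

theorem dl_cont {t : ℝ} (ht : 0 < t) (ht1 : t ≤ 1) (m : ℕ) :
    Continuous (dl (n := n) ht ht1 m) :=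
  Continuous.subtype_mk ((dz_cont t ht).comp continuous_subtype_val) _

theorem tt_dl {t : ℝ} (ht : 0 < t) (ht1 : t ≤ 1) (m : ℕ) (p : LG (Bm n m).1) :
    tt (Bm n m) (dl ht ht1 m p) = dd n t (tt (Bm n m) p) := by
  apply Subtype.ext
  rw [dd_val ht ht1]
  rfl

/-- the uniform version of fragmentation -/
theorem frag_auto {t : ℝ} (ht : 0 < t) (ht1 : t ≤ 1)
    (h : Subgroup.normalClosure (Hs n t : Set (HamBar n)) = ⊤) (i : KI n) :
    ∃ N : ℕ, ∃ ε : ℝ, 0 < ε ∧ ∀ p : LG i.1, (∀ x, dist (hm p x) x < ε) →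
      CP (Hs n t : Set (HamBar n)) N (tt i p) := by
  let V : ℕ → Set (HamBar n) := fun m => tt (Bm n m) ''
    (range fun q : LG (Bm n m).1 × LG (Bm n m).1 => q.1 * dl ht ht1 m q.2 * q.1⁻¹)
  have hV : ∀ m, Cl (fun i : KI n => LG i.1) tt (V m) := fun m =>
    ⟨_, _, analyticSet_range_of_polishSpace
      ((continuous_fst.mul ((dl_cont ht ht1 m).comp continuous_snd)).mul continuous_fst.inv), rfl⟩
  have hV2 : ∀ y, (∃ m, y ∈ V m) ↔ ∃ h, ∃ f ∈ (Hs n t : Set (HamBar n)), y = h * f * h⁻¹ := by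
    intro y
    constructor
    · rintro ⟨m, _, ⟨q, rfl⟩, rfl⟩
      refine ⟨tt _ q.1, dd n t (tt _ q.2), ⟨_, rfl⟩, ?_⟩
      rw [map_mul, map_mul, map_inv, tt_dl]
    · rintro ⟨h, _, ⟨f, rfl⟩, rfl⟩
      obtain ⟨j, h', rfl⟩ := exists_tt h
      obtain ⟨k, f', rfl⟩ := exists_tt f
      obtain ⟨m, hm⟩ := le_Bm (j ⊔ k)
      refine ⟨m, _, ⟨(ci j (Bm n m) (le_sup_left.trans hm) h',
        ci k (Bm n m) (le_sup_right.trans hm) f'), rfl⟩, ?_⟩
      rw [map_mul, map_mul, map_inv, tt_dl]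
      rfl
  have hV3 : ∀ y, (∃ m, y ∈ V m ∨ y⁻¹ ∈ V m) ↔
      ∃ h, ∃ f ∈ (Hs n t : Set (HamBar n)), y = h * f * h⁻¹ := by
    intro y
    rw [exists_or, hV2, hV2]
    constructor
    · rintro (h | ⟨h, f, hf, hy⟩)
      · exact h
      · refine ⟨h, f⁻¹, (Hs n t).inv_mem hf, ?_⟩
        rw [← inv_inv y, hy]
        group
    · exact fun h => Or.inl h
  obtain ⟨N, ε, hε, hN⟩ := auto_ham V hV (fun x => by
    obtain ⟨m, l, -, h2, h3⟩ := CP_of_closure (show x ∈ Subgroup.normalClosure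
      (Hs n t : Set (HamBar n)) by rw [h]; exact Subgroup.mem_top x)
    refine ⟨l, fun y hy => (hV3 y).2 ?_, h3⟩
    obtain ⟨k, f, hf, hy⟩ := h2 y hy
    refine ⟨k, f, ?_, hy⟩
    rcases hf with hf | hf
    · exact hf
    · have := (Hs n t).inv_mem hf
      rwa [inv_inv] at this) i
  refine ⟨N, ε, hε, fun p hp => ?_⟩
  obtain ⟨l, h1, h2, h3⟩ := hN p hp
  exact ⟨l, h1, fun y hy => (hV3 y).1 (h2 y hy), h3⟩

/-- `x` is a product of at most `m` commutators -/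
def CM {G : Type} [Group G] (m : ℕ) (x : G) : Prop :=
  ∃ l : List G, l.length ≤ m ∧ (∀ y ∈ l, ∃ a b, y = a * b * a⁻¹ * b⁻¹) ∧ l.prod = x

theorem CM_of {G : Type} [Group G] {x : G} (hx : x ∈ commutator G) : ∃ m, CM m x := by
  rw [commutator_eq_closure] at hx
  refine Subgroup.closure_induction (p := fun x _ => ∃ m, CM m x) (fun x hx => ?_)
    ⟨0, [], by simp, by simp, rfl⟩ (fun x y _ _ hx hy => ?_) (fun x _ hx => ?_) hx
  · obtain ⟨a, b, h⟩ := hx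
    refine ⟨1, [x], by simp, fun y hy => ?_, by simp⟩
    rw [List.mem_singleton] at hy
    exact ⟨a, b, by rw [hy, ← h]; rfl⟩
  · obtain ⟨m, l, h1, h2, rfl⟩ := hx
    obtain ⟨k, l', h1', h2', rfl⟩ := hy
    refine ⟨m + k, l ++ l', by rw [List.length_append]; omega, fun y hy => ?_, List.prod_append⟩
    rcases List.mem_append.1 hy with h | h
    · exact h2 y h
    · exact h2' y h
  · obtain ⟨m, l, h1, h2, rfl⟩ := hx
    refine ⟨m, (l.map fun y => y⁻¹).reverse, by simpa using h1, fun y hy => ?_, ?_⟩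
    · rw [List.mem_reverse, List.mem_map] at hy
      obtain ⟨z, hz, rfl⟩ := hy
      obtain ⟨a, b, rfl⟩ := h2 z hz
      exact ⟨b, a, by group⟩
    · rw [List.prod_inv_reverse]

theorem CM.mem {G : Type} [Group G] {m : ℕ} {x : G} (hx : CM m x) : x ∈ commutator G := by
  obtain ⟨l, -, h2, rfl⟩ := hx
  refine Subgroup.list_prod_mem _ fun y hy => ?_
  obtain ⟨a, b, rfl⟩ := h2 y hy
  exact Subgroup.commutator_mem_commutator (Subgroup.mem_top a) (Subgroup.mem_top b)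

/-- the uniform version of perfectness -/
theorem comm_auto (h : commutator (HamBar n) = ⊤) (i : KI n) :
    ∃ N : ℕ, ∃ ε : ℝ, 0 < ε ∧ ∀ p : LG i.1, (∀ x, dist (hm p x) x < ε) → CM N (tt i p) := by
  let V : ℕ → Set (HamBar n) := fun m => tt (Bm n m) ''
    (range fun q : LG (Bm n m).1 × LG (Bm n m).1 => q.1 * q.2 * q.1⁻¹ * q.2⁻¹)
  have hV : ∀ m, Cl (fun i : KI n => LG i.1) tt (V m) := fun m =>
    ⟨_, _, analyticSet_range_of_polishSpace (by fun_prop), rfl⟩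
  have hV2 : ∀ y, (∃ m, y ∈ V m) ↔ ∃ a b, y = a * b * a⁻¹ * b⁻¹ := by
    intro y
    constructor
    · rintro ⟨m, _, ⟨q, rfl⟩, rfl⟩
      refine ⟨tt _ q.1, tt _ q.2, ?_⟩
      rw [map_mul, map_mul, map_mul, map_inv, map_inv]
    · rintro ⟨a, b, rfl⟩
      obtain ⟨j, a', rfl⟩ := exists_tt a
      obtain ⟨k, b', rfl⟩ := exists_tt b
      obtain ⟨m, hm⟩ := le_Bm (j ⊔ k)
      refine ⟨m, _, ⟨(ci j (Bm n m) (le_sup_left.trans hm) a',
        ci k (Bm n m) (le_sup_right.trans hm) b'), rfl⟩, ?_⟩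
      rw [map_mul, map_mul, map_mul, map_inv, map_inv]
      rfl
  have hV3 : ∀ y, (∃ m, y ∈ V m ∨ y⁻¹ ∈ V m) ↔ ∃ a b, y = a * b * a⁻¹ * b⁻¹ := by
    intro y
    rw [exists_or, hV2, hV2]
    constructor
    · rintro (h | ⟨a, b, hy⟩)
      · exact h
      · refine ⟨b, a, ?_⟩
        rw [← inv_inv y, hy]
        group
    · exact fun h => Or.inl h
  obtain ⟨N, ε, hε, hN⟩ := auto_ham V hV (fun x => by
    obtain ⟨m, l, -, h2, h3⟩ := CM_of (show x ∈ commutator (HamBar n) by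
      rw [h]; exact Subgroup.mem_top x)
    exact ⟨l, fun y hy => (hV3 y).2 (h2 y hy), h3⟩) i
  refine ⟨N, ε, hε, fun p hp => ?_⟩
  obtain ⟨l, h1, h2, h3⟩ := hN p hp
  exact ⟨l, h1, fun y hy => (hV3 y).1 (h2 y hy), h3⟩

end Pool.Agent.Q175.HU
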