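import Pool.Agent.Q175.HU.Inf

/-!
The infinite product is a homomorphism to the group of Hamiltonian homeomorphisms of the ball.
-/

set_option autoImplicit false

open Set Filter Topology Function

namespace Pool.Agent.Q175.HU

open Pool.Agent.Y453.HB
open Pool.Agent.Y496.HB (fixOff maps comm cp_apply Sh rad_anti idx)

variable {n : ℕ} {s : ℝ} (hs : 0 < s)

include hs in
theorem FF_ham (hs1 : s ≤ 1) {v : ℕ → (E n ≃ₜ E n)} (hv : ∀ k, IsHam (v k)) (m : ℕ) :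
    IsHam (FF s hs v m) := by
  induction m with
  | zero => exact (Pool.Agent.Y510.HB.inv n).1
  | succ m ih =>
    exact Pool.Agent.Y907.HB.mul n _ _ ih (cp_ham Pool.Agent.Y419.HB.dil_ham hs hs1 (hv m) m)

theorem FF_uconv {v : ℕ → ℕ → (E n ≃ₜ E n)} {θ : ℕ → (E n ≃ₜ E n)}
    (h : ∀ j, UConv (v j) (θ j)) (m : ℕ) :
    UConv (fun k => FF s hs (fun j => v j k) m) (FF s hs θ m) := by
  induction m with
  | zero => exact Pool.Agent.Y309.HB.uc_one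
  | succ m ih =>
    exact (Pool.Agent.Y309.HB.uc n).1 _ _ _ _ ih (cp_uconv Pool.Agent.Y309.HB.uc hs (h m) m)

variable (hs1 : s < 1) {ρ : ℝ} (hρ : 0 < ρ)

/-- infinite products are Hamiltonian homeomorphisms -/
theorem PP_mem (hρ1 : ρ < 1) {θ : ℕ → (E n ≃ₜ E n)} (hθ : ∀ k, θ k ∈ HS n s ρ) :
    PP s hs hs1 ρ hρ θ (fun k => (hθ k).1) ∈ hamBar n := by
  have h1 : ∀ k, θ k ∈ fixOff (Sl n s ρ) := fun k => (hθ k).1
  have hex := fun k => (hθ k).2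
  choose v h2 h3 h4 using hex
  have hJ : ∀ m : ℕ, ∃ k : ℕ, ∀ x, dist (FF s hs θ m x) (FF s hs (fun j => v j k) m x) <
      1 / ((m : ℝ) + 1) := by
    intro m
    have h1 := Metric.tendstoUniformly_iff.1 (FF_uconv hs h4 m).1 (1 / ((m : ℝ) + 1))
      (by positivity)
    exact h1.exists
  choose J hJ using hJ
  refine ⟨{x | Q x ≤ ρ ^ 2}, Q_compact _, fun x hx => ?_, fun x hx => ?_,
    fun m => FF s hs (fun j => v j (J m)) m, fun m x hx => ?_,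
    fun m => FF_ham hs hs1.le (fun j => h3 j (J m)) m, ?_⟩
  · have : Q x ≤ ρ ^ 2 := hx
    change Q x < 1
    nlinarith
  · change pp s hs ρ θ x = x
    unfold pp
    exact FF_mem s hs hs1 ρ hρ h1 _ x fun h2 => hx h2.2
  · exact FF_mem s hs hs1 ρ hρ (fun j => h2 j (J m)) m x fun h2 => hx h2.2
  · rw [Metric.tendstoUniformly_iff]
    intro ε hε
    have h1' : Tendsto (fun m : ℕ => 2 * (s ^ m * ρ) + 1 / ((m : ℝ) + 1)) atTop (𝓝 0) := by
      have h2 := tendsto_pow_atTop_nhds_zero_of_lt_one hs.le hs1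
      have h3 := ((h2.mul_const ρ).const_mul 2).add
        (tendsto_one_div_add_atTop_nhds_zero_nat (𝕜 := ℝ))
      simpa using h3
    filter_upwards [h1'.eventually (gt_mem_nhds hε)] with m hm x
    calc dist (PP s hs hs1 ρ hρ θ h1 x) (FF s hs (fun j => v j (J m)) m x)
        ≤ dist (PP s hs hs1 ρ hρ θ h1 x) (FF s hs θ m x) +
          dist (FF s hs θ m x) (FF s hs (fun j => v j (J m)) m x) := dist_triangle _ _ _
      _ < 2 * (s ^ m * ρ) + 1 / ((m : ℝ) + 1) :=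
          add_lt_add_of_le_of_lt (pp_dist s hs hs1 ρ hρ h1 m x) (hJ m x)
      _ < ε := hm

/-- the infinite product homomorphism -/
noncomputable def Psi (hρ1 : ρ < 1) : (ℕ → HS n s ρ) →* HamBar n where
  toFun θ := ⟨PP s hs hs1 ρ hρ (fun k => (θ k : E n ≃ₜ E n)) (fun k => (θ k).2.1),
    Q175.HM.mem_HamBar.2 (PP_mem hs hs1 hρ hρ1 fun k => (θ k).2)⟩
  map_one' := Subtype.ext (PP_one s hs hs1 ρ hρ)
  map_mul' θ θ' := Subtype.ext
    (PP_mul s hs hs1 ρ hρ (fun k => (θ k).2.1) (fun k => (θ' k).2.1))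

theorem Psi_val (hρ1 : ρ < 1) (θ : ℕ → HS n s ρ) :
    ((Psi hs hs1 hρ hρ1 θ : HamBar n) : E n ≃ₜ E n) =
      PP s hs hs1 ρ hρ (fun k => (θ k : E n ≃ₜ E n)) (fun k => (θ k).2.1) := rfl

/-- elements of the shell group are Hamiltonian homeomorphisms -/
theorem HS_mem (hρ0 : 0 < ρ) (hρ1 : ρ < 1) {φ : E n ≃ₜ E n} (h : φ ∈ HS n s ρ) : φ ∈ hamBar n := by
  obtain ⟨h1, u, h2, h3, h4⟩ := h
  refine ⟨{x | Q x ≤ ρ ^ 2}, Q_compact _, fun x hx => ?_, fun x hx => h1 x fun h => hx h.2, u,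
    fun k x hx => h2 k x fun h => hx h.2, h3, h4.1⟩
  have : Q x ≤ ρ ^ 2 := hx
  change Q x < 1
  nlinarith

theorem Psi_shift (hρ1 : ρ < 1) (θ : ℕ → HS n s ρ) :
    Psi hs hs1 hρ hρ1 θ = (⟨θ 0, Q175.HM.mem_HamBar.2 (HS_mem hρ hρ1 (θ 0).2)⟩ : HamBar n) *
      Q175.HM.dd n s (Psi hs hs1 hρ hρ1 fun k => θ (k + 1)) := by
  apply Subtype.ext
  rw [Subgroup.coe_mul, Q175.HM.dd_val hs hs1.le, Psi_val, Psi_val]
  exact PP_shift s hs hs1 ρ hρ _

theorem Psi_dil (hρ1 : ρ < 1) {r : ℝ} (hr : 0 < r) (hr1 : r ≤ 1) (θ θ' : ℕ → HS n s ρ)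
    (h : ∀ k, (θ' k : E n ≃ₜ E n) = dil r hr * (θ k : E n ≃ₜ E n) * (dil r hr)⁻¹) :
    Psi hs hs1 hρ hρ1 θ' = Q175.HM.dd n r (Psi hs hs1 hρ hρ1 θ) := by
  apply Subtype.ext
  rw [Q175.HM.dd_val hr hr1, Psi_val, Psi_val, ← PP_dil s hs hs1 ρ hρ (fun k => (θ k).2.1) hr
    (fun k => by
      simp only [← h]
      exact (θ' k).2.1)]
  simp only [h]

end Pool.Agent.Q175.HU
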