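import Pool.Agent.Q175.HU.Psi

/-!
Cut off rotations by the angle `π` about arbitrary points.
-/

set_option autoImplicit false

open Set Filter Topology Function

namespace Pool.Agent.Q175.HU

open Pool.Agent.Y453.HB
open Pool.Agent.Y945.HB (rt TW Q_smooth XH_eq Q_rt flow_deriv rt_pi rt_zero)
open Pool.Agent.Y496.HB (fixOff maps)

variable {n : ℕ}

/-- a cut off rotation by the angle `π` about the point `m` -/
theorem rotm (m : E n) {c ρ : ℝ} (hc0 : 0 < c) (hcρ : c < ρ) (hm : √(Q m) + ρ < 1) :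
    ∃ R : E n ≃ₜ E n, IsHam R ∧ (∀ x, ρ ^ 2 < Q (x - m) → R x = x) ∧
      ∀ x, Q (x - m) ≤ c ^ 2 → R x = m + m - x := by
  have hρ0 : 0 < ρ := hc0.trans hcρ
  set q₂ : ℝ := ρ ^ 2 with hq₂
  set q₁ : ℝ := (c ^ 2 + ρ ^ 2) / 2 with hq₁
  have hcc : c ^ 2 < ρ ^ 2 := by nlinarith
  have h1 : c ^ 2 < q₁ := by rw [hq₁]; linarith
  have h2 : q₁ < q₂ := by rw [hq₁, hq₂]; linarith
  have h21 : 0 < q₂ - q₁ := by linarith
  -- the function
  set χ : ℝ → ℝ := fun q => Real.smoothTransition ((q₂ - q) / (q₂ - q₁)) with hχ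
  set h : ℝ → ℝ := fun q => Real.pi / 2 * q * χ q with hh
  have hχs : ContDiff ℝ ((⊤ : ℕ∞) : WithTop ℕ∞) χ := by
    rw [hχ]
    exact Real.smoothTransition.contDiff.comp
      ((contDiff_const.sub contDiff_id).div_const (q₂ - q₁))
  have hhs : ContDiff ℝ ((⊤ : ℕ∞) : WithTop ℕ∞) h := by
    rw [hh]
    exact (contDiff_const.mul contDiff_id).mul hχs
  have hhd : Differentiable ℝ h := hhs.differentiable (by simp)
  have hdc : Continuous (deriv h) := hhs.continuous_deriv (by
    exact_mod_cast le_top)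
  have hgc : Continuous (fun q => 2 * deriv h q) := hdc.const_mul 2
  have hχ0 : ∀ q, q₂ < q → χ q = 0 := by
    intro q hq
    rw [hχ]
    apply Real.smoothTransition.zero_of_nonpos
    apply div_nonpos_of_nonpos_of_nonneg _ h21.le
    linarith
  have hder : ∀ q, q < q₁ → 2 * deriv h q = Real.pi := by
    intro q hq
    have h3 : h =ᶠ[𝓝 q] fun q => Real.pi / 2 * q := by
      filter_upwards [Iio_mem_nhds hq] with y hy
      have h4 : χ y = 1 := by
        rw [hχ]
        apply Real.smoothTransition.one_of_one_le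
        rw [le_div_iff₀ h21]
        have : y < q₁ := hy
        linarith
      show Real.pi / 2 * y * χ y = _
      rw [h4, mul_one]
    rw [h3.deriv_eq]
    have h5 : deriv (fun q : ℝ => Real.pi / 2 * q) q = Real.pi / 2 := by
      simp
    rw [h5]; ring
  have hder0 : ∀ q, q₂ < q → 2 * deriv h q = 0 := by
    intro q hq
    have h3 : h =ᶠ[𝓝 q] fun _ => (0 : ℝ) := by
      filter_upwards [Ioi_mem_nhds hq] with y hy
      show Real.pi / 2 * y * χ y = _
      rw [hχ0 y hy, mul_zero]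
    rw [h3.deriv_eq]
    simp
  refine ⟨TW (fun q => 2 * deriv h q) hgc m, ?_, fun x hx => ?_, fun x hx => ?_⟩
  · refine ⟨fun _ y => h (Q (y - m)), ?_, ⟨{x | Q (x - m) ≤ q₂}, ?_, ?_, ?_⟩,
      fun t x => m + rt (2 * deriv h (Q (x - m)) * t) (x - m), ?_, ?_, ?_⟩
    · exact hhs.comp (Q_smooth.comp (contDiff_snd.sub contDiff_const))
    · have h3 : {x : E n | Q (x - m) ≤ q₂} = (fun y => y + m) '' {x : E n | Q x ≤ q₂} := by
        ext x
        constructor
        · intro hx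
          exact ⟨x - m, hx, sub_add_cancel x m⟩
        · rintro ⟨y, hy, rfl⟩
          show Q (y + m - m) ≤ q₂
          rw [add_sub_cancel_right]
          exact hy
      rw [h3]
      exact (Q_compact q₂).image (continuous_id.add continuous_const)
    · intro x hx
      have hx' : Q (x - m) ≤ ρ ^ 2 := hx
      have h3 := sqrtQ_add (x - m) m
      rw [sub_add_cancel] at h3
      have h4 : √(Q (x - m)) ≤ ρ := by
        rw [← Real.sqrt_sq hρ0.le]
        exact Real.sqrt_le_sqrt hx'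
      have h5 : √(Q x) < 1 := by linarith
      show Q x < 1
      rwa [Real.sqrt_lt' one_pos, one_pow] at h5
    · intro t x hx
      have hx' : q₂ < Q (x - m) := not_le.1 hx
      show Real.pi / 2 * Q (x - m) * χ (Q (x - m)) = 0
      rw [hχ0 _ hx', mul_zero]
    · intro x
      simp only [mul_zero, rt_zero, add_sub_cancel]
    · intro t x
      rw [XH_eq hhd m]
      simp only [add_sub_cancel_left, Q_rt]
      exact flow_deriv _ m (x - m) t
    · intro x
      simp only [mul_one]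
      rfl
  · show m + rt (2 * deriv h (Q (x - m))) (x - m) = x
    rw [hder0 _ hx, rt_zero, add_sub_cancel]
  · show m + rt (2 * deriv h (Q (x - m))) (x - m) = m + m - x
    rw [hder _ (lt_of_le_of_lt hx h1), rt_pi]
    abel

/-- a point of given norm -/
theorem exists_pt (hn : 0 < n) (d : ℝ) : ∃ a : E n, Q a = d ^ 2 := by
  refine ⟨(Pi.single ⟨0, hn⟩ d, 0), ?_⟩
  unfold Q
  rw [Finset.sum_eq_single (⟨0, hn⟩ : Fin n)]
  · simp
  · intro i _ hi
    simp [Pi.single_eq_of_ne hi]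
  · intro hi; exact absurd (Finset.mem_univ _) hi

theorem Q_sub_comm (a b : E n) : Q (a - b) = Q (b - a) := by
  rw [show a - b = (-1 : ℝ) • (b - a) by rw [neg_smul, one_smul, neg_sub], Q_smul]
  ring

theorem sqrtQ_le {a : E n} {c : ℝ} (hc : 0 ≤ c) (h : Q a ≤ c ^ 2) : √(Q a) ≤ c := by
  rw [← Real.sqrt_sq hc]
  exact Real.sqrt_le_sqrt h

theorem Q_le_of {a : E n} {c : ℝ} (h : √(Q a) ≤ c) : Q a ≤ c ^ 2 := by
  rw [← Real.sq_sqrt (Q_nonneg a)]
  exact pow_le_pow_left₀ (Real.sqrt_nonneg _) h 2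

theorem lt_Q_of {a : E n} {c : ℝ} (hc : 0 ≤ c) (h : c < √(Q a)) : c ^ 2 < Q a := by
  rw [← Real.sq_sqrt (Q_nonneg a)]
  exact pow_lt_pow_left₀ h hc two_ne_zero

/-- points near `b` lie in a shell -/
theorem near_shell {b x : E n} {c l u : ℝ} (hc : 0 ≤ c) (hl : 0 ≤ l) (h : Q (x - b) ≤ c ^ 2)
    (h1 : l < √(Q b) - c) (h2 : √(Q b) + c ≤ u) : l ^ 2 < Q x ∧ Q x ≤ u ^ 2 := by
  have h3 := sqrtQ_le hc h
  have h4 := sqrtQ_add (x - b) b
  rw [sub_add_cancel] at h4
  have h5 := sqrtQ_add (b - x) x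
  rw [sub_add_cancel, Q_sub_comm] at h5
  exact ⟨lt_Q_of hl (by linarith), Q_le_of (by linarith)⟩

/-- conjugates of an element with small support by a rotation -/
theorem conj_rot {R D : E n ≃ₜ E n} {a : E n} {r q : ℝ} (hq : q ≤ r ^ 2)
    (hR : ∀ x, Q x ≤ r ^ 2 → R x = a - x) (hD : D ∈ fixOff {x : E n | Q x ≤ q}) :
    (∀ y, Q y ≤ q → (R * D * R⁻¹ : E n ≃ₜ E n) (a - y) = a - D y) ∧
    ∀ z, q < Q (a - z) → (R * D * R⁻¹ : E n ≃ₜ E n) z = z := by
  constructor
  · intro y hy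
    have h1 : R⁻¹ (a - y) = y := by
      rw [← hR y (hy.trans hq), inv_apply_self]
    rw [mul_apply, mul_apply, h1, hR]
    exact (show Q (D y) ≤ q from maps hD hy).trans hq
  · intro z hz
    rw [mul_apply, mul_apply, hD, apply_inv_self]
    intro hc
    have h1 : Q (R⁻¹ z) ≤ q := hc
    have h2 := hR _ (h1.trans hq)
    rw [apply_inv_self] at h2
    rw [h2, sub_sub_cancel] at hz
    linarith

/-- intertwining -/
theorem intertw {A B τ D : E n ≃ₜ E n} {a b : E n} {q : ℝ}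
    (hA1 : ∀ y, Q y ≤ q → A (a - y) = a - D y) (hA2 : ∀ z, q < Q (a - z) → A z = z)
    (hB1 : ∀ y, Q y ≤ q → B (b - y) = b - D y) (hB2 : ∀ z, q < Q (b - z) → B z = z)
    (hD : D ∈ fixOff {x : E n | Q x ≤ q}) (hτ : ∀ y, Q y ≤ q → τ (a - y) = b - y) :
    τ * A * τ⁻¹ = B := by
  have h0 : τ * A = B * τ := by
    refine Homeomorph.ext fun z => ?_
    rw [mul_apply, mul_apply]
    rcases le_or_gt (Q (a - z)) q with h | h
    · obtain ⟨y, rfl⟩ : ∃ y, z = a - y := ⟨a - z, by abel⟩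
      rw [sub_sub_cancel] at h
      rw [hA1 y h, hτ y h, hB1 y h, hτ]
      exact maps hD h
    · rw [hA2 z h, hB2]
      by_contra hc
      push Not at hc
      have h1 := hτ _ hc
      rw [sub_sub_cancel] at h1
      have h2 := τ.injective h1
      rw [← h2, sub_sub_cancel] at h
      linarith
  rw [h0, mul_inv_cancel_right]

end Pool.Agent.Q175.HU
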